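import Pool.Agent.LibTrade92.Sharp
import Pool.Agent.LibDown92.DownH
import Pool.Agent.LibDown92.Tally
import Pool.Agent.LibDown92.Top
import Pool.Agent.LibSpec4.Nice
import Pool.Agent.LibQry85.Main

/-!
The main theorems.
-/

namespace Pool.Agent.LibTrade92

open Function Filter
open Pool.Agent.LibNexp hiding lev lev_mono CodeLang exists_prog'
open Pool.Agent.LibDown92 (NH Closed Graph down_h tally_closed top_savings nh_closed)
open Pool.Agent.LibSpec30 (Enough)
open Pool.Agent.LibNexp55 (BH levels BH_one)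
open Pool.Agent.LibBHN (PTime FPTime POracle)
open Pool.Agent.LibDual85 (nexp_twoPow PQueryF)
open Pool.Agent.LibQry85 (Constr)

variable {O : List Bool → Bool}

/-- `NEXP` is closed under complement. -/
def Q1 (O : List Bool → Bool) : Prop := ∀ L ∈ NEXPLang O, Lᶜ ∈ NEXPLang O

theorem not_q1 (h : WitLang O ∈ NEXPLang O ∧ (WitLang O)ᶜ ∉ NEXPLang O) : ¬ Q1 O :=
  fun h1 => h.2 (h1 _ h.1)

theorem graph_of {h : ℕ → ℕ}
    (hg : NEXP (fun _ => false) fun e : Fin 2 → List Bool => (e 1).length = h (e 0).length)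
    (O : List Bool → Bool) : Graph O h := Pool.Agent.LibSpec4.nexp_of_trivial hg O

theorem closed_of_q1 {h : ℕ → ℕ} (hs : StrictMono h) (hg : Graph O h) (hQ : Q1 O) : Closed O h :=
  nh_closed (fun n => hs.id_le n) hg hQ

/-- No advice is some advice. -/
theorem enough_of_q1 (hQ : Q1 O) (s : ℕ → ℕ) : Enough O s := by
  intro L hL
  obtain ⟨B, hB, hBR⟩ := rel_of_nexp (O := O) (C := fun x _ => x ∈ Lᶜ)
    (nexp_mem (k := 2) (hQ L hL) 0)
  refine ⟨0, B, hB, fun _ => [], fun n => by simp, ?_⟩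
  ext x
  show x ∈ Lᶜ ↔ pair x [] ∈ B
  rw [hBR]

/-- Finitely many advice values are a constant amount of advice. -/
theorem enough_of_bh {m : ℕ} (hm : 1 ≤ m) (h : ∀ L ∈ BH O m, Lᶜ ∈ BH O m) :
    Enough O fun _ => 0 := by
  intro L hL
  have h1 := (levels O hm).out 0 3
  obtain ⟨A, -, B, hB, f, hf, hfB⟩ := h1.1 h L hL
  refine ⟨A.sup List.length, B, hB, f, fun n => ?_, hfB⟩
  rw [Nat.zero_add]
  exact Finset.le_sup (f := List.length) (hf n)

theorem bh_of_q1 (hQ : Q1 O) (m : ℕ) (hm : 1 ≤ m) : ∀ L ∈ BH O m, Lᶜ ∈ BH O m := by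
  refine ((levels O hm).out 0 3).2 fun L hL => ?_
  obtain ⟨B, hB, hBR⟩ := rel_of_nexp (O := O) (C := fun x _ => x ∈ Lᶜ)
    (nexp_mem (k := 2) (hQ L hL) 0)
  refine ⟨{[]}, by simpa using hm, B, hB, fun _ => [], fun n => by simp, ?_⟩
  ext x
  show x ∈ Lᶜ ↔ pair x [] ∈ B
  rw [hBR]

/-- Which closure under complement of a larger class together with how much advice is enough for
every oracle? -/
theorem trade {h s : ℕ → ℕ} (hs : StrictMono h)
    (hg : NEXP (fun _ => false) fun e : Fin 2 → List Bool => (e 1).length = h (e 0).length)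
    (hsm : Monotone s) (hsn : ∀ n, s n ≤ n) :
    (∀ O : List Bool → Bool, Closed O h → Enough O s → Q1 O) ↔
      (∃ K : ℕ, ∀ n, h (n + 1) ≤ h n ^ K + K) ∧ ∃ C : ℕ, 1 ≤ C ∧ ∀ n, h (s n / C) ≤ n ^ C + C := by
  constructor
  · intro hall
    constructor
    · by_contra hK
      push Not at hK
      obtain ⟨O, h1, h2, h3⟩ := gap hs hK
      refine not_q1 h3 (hall O h1 ?_)
      intro L hL
      obtain ⟨c, hc⟩ := enough_of_bh (by norm_num) h2 L hL
      refine ⟨c, ?_⟩
      obtain ⟨B, hB, f, hf, hfB⟩ := hc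
      exact ⟨B, hB, f, fun n => le_trans (hf n) (by
        show 0 + c ≤ s n + c
        omega), hfB⟩
    · by_contra hC
      push Not at hC
      obtain ⟨O, h1, h2, h3⟩ := sharp hs hsm hsn (by
        intro C hC1
        rw [frequently_atTop]
        intro b
        obtain ⟨n, hn⟩ := hC (max C (h (s b) + 1)) (by omega)
        set C' := max C (h (s b) + 1) with hC'
        have hCC : C ≤ C' := le_max_left _ _
        have hsC' : h (s b) + 1 ≤ C' := le_max_right _ _
        have h4 : h (s n / C') ≤ h (s n) := hs.monotone (Nat.div_le_self _ _)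
        have h5 : s b < s n := hs.lt_iff_lt.1 (by omega)
        have h6 : b < n := by
          by_contra hge
          push Not at hge
          have := hsm hge
          omega
        refine ⟨n, h6.le, ?_⟩
        have h7 : n ^ C ≤ n ^ C' := Nat.pow_le_pow_right (by omega) hCC
        have h8 : h (s n / C') ≤ h (s n / C) :=
          hs.monotone (Nat.div_le_div_left hCC (by omega))
        omega)
      exact not_q1 h3 (hall O h1 h2)
  · rintro ⟨⟨K, hK⟩, C, hC1, hC⟩ O hcl hE
    exact down_h hs (graph_of hg O) hK hcl hC1 hC hE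

/-- The same for the collapse of the Boolean hierarchy. -/
theorem trade_bh {h : ℕ → ℕ} (hs : StrictMono h)
    (hg : NEXP (fun _ => false) fun e : Fin 2 → List Bool => (e 1).length = h (e 0).length) :
    List.TFAE [∀ (O : List Bool → Bool) (m : ℕ), 1 ≤ m → Closed O h →
        (∀ L ∈ BH O m, Lᶜ ∈ BH O m) → Q1 O,
      ∀ O : List Bool → Bool, Closed O h → (∀ L ∈ BH O 2, Lᶜ ∈ BH O 2) → Q1 O,
      ∃ K : ℕ, ∀ n, h (n + 1) ≤ h n ^ K + K] := by
  tfae_have 1 → 2 := fun h1 O => h1 O 2 (by norm_num)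
  tfae_have 2 → 3 := by
    intro hall
    by_contra hK
    push Not at hK
    obtain ⟨O, h1, h2, h3⟩ := gap hs hK
    exact not_q1 h3 (hall O h1 h2)
  tfae_have 3 → 1 := by
    rintro ⟨K, hK⟩ O m hm hcl hb
    exact down_h hs (graph_of hg O) hK hcl (C := h 0 + 1) (by omega) (s := fun _ => 0) (by
      intro n
      have : 0 / (h 0 + 1) = 0 := Nat.zero_div _
      rw [this]
      omega) (enough_of_bh hm hb)
  tfae_finish

theorem strict_two : StrictMono fun n : ℕ => 2 ^ n := fun _ _ h =>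
  Nat.pow_lt_pow_right (by norm_num) h

/-- Doubly exponential time: logarithmic advice and logarithmically many queries. -/
theorem log_list (O : List Bool → Bool) : List.TFAE [
    Q1 O,
    Closed O (fun n => 2 ^ n) ∧ ∃ C : ℕ, Enough O fun n => C * Nat.log 2 (n + 1),
    Closed O (fun n => 2 ^ n) ∧ ∃ C : ℕ, ∀ L ∈ POracle (NEXPLang O), ∃ c : ℕ,
      L ∈ PQueryF (NEXPLang O) fun n => C * Nat.log 2 (n + 1) + c,
    Closed O (fun n => 2 ^ n) ∧ ∃ (M : ℕ) (r : ℕ → ℕ), Constr O r ∧
      (∃ D : ℕ, ∀ n, (M + 1) * r n ≤ M * Nat.log 2 (n + 1) + D) ∧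
      PQueryF (NEXPLang O) (fun n => r n + 1) ⊆
        PQueryF (NEXPLang O) r] := by
  have hmain := Pool.Agent.LibQry85.main O
  have h1 := hmain.out 5 0
  have h2 := hmain.out 5 3
  have hg : Graph O fun n => 2 ^ n := nexp_twoPow 0 1
  tfae_have 1 → 2 := fun hQ => ⟨closed_of_q1 strict_two hg hQ, 0, enough_of_q1 hQ _⟩
  tfae_have 2 → 1 := by
    rintro ⟨hcl, C, hE⟩
    refine down_h strict_two hg (K := 2) (fun n => ?_) hcl (C := C + 1) (by omega) (fun n => ?_) hE
    · show 2 ^ (n + 1) ≤ (2 ^ n) ^ 2 + 2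
      rw [pow_succ]
      have : 1 ≤ 2 ^ n := Nat.one_le_two_pow
      nlinarith
    · show 2 ^ (C * Nat.log 2 (n + 1) / (C + 1)) ≤ n ^ (C + 1) + (C + 1)
      have h3 : C * Nat.log 2 (n + 1) / (C + 1) ≤ Nat.log 2 (n + 1) := by
        refine Nat.div_le_of_le_mul ?_
        have : C * Nat.log 2 (n + 1) ≤ (C + 1) * Nat.log 2 (n + 1) :=
          Nat.mul_le_mul_right _ (Nat.le_succ C)
        exact this
      have h4 : 2 ^ (C * Nat.log 2 (n + 1) / (C + 1)) ≤ n + 1 :=
        le_trans (Nat.pow_le_pow_right (by norm_num) h3) (Nat.pow_log_le_self 2 (by omega))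
      have h5 : n ≤ n ^ (C + 1) := Nat.le_self_pow (by omega) n
      omega
  tfae_have 2 ↔ 3 := and_congr_right fun _ => h2
  tfae_have 2 ↔ 4 := and_congr_right fun _ => h1
  tfae_finish

/-- Languages of `P^NEXP` which depend only on the length. -/
theorem tally_iff (O : List Bool → Bool) : Q1 O ↔ ∀ L ∈ POracle (NEXPLang O),
    (∀ x y : List Bool, x.length = y.length → x ∈ L → y ∈ L) → L ∈ NEXPLang O := by
  constructor
  · intro hQ L hL _
    have h1 := ((levels O (m := 1) le_rfl).out 0 2).1 (bh_of_q1 hQ 1 le_rfl)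
    rw [h1, BH_one] at hL
    exact hL
  · exact fun h => tally_closed h

end Pool.Agent.LibTrade92
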