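import Pool.Agent.LibTrade92.Step

/-!
The chain of worlds and one stage of the construction.
-/

namespace Pool.Agent.LibTrade92

open Function Pool.Agent.LibNexp
open Pool.Agent.LibSpec4 (dg length_dg dg_injective bt bt_injective length_bt ask cd ask_injective
  cd_injective length_ask length_cd length_lt_cd xs length_xs xs_injective census lev
  witLang_agree census_agree le_lev lev_mono exists_fix exists_notMem xs_append census_eq acc_use')

variable {en : ℕ → Prog × (ℕ → ℕ)} {V ν : ℕ → ℕ} {tgd : ℕ → ℕ → Prop} {R : ℕ → ℕ} {L k : ℕ}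
  {I : Finset (ℕ × List Bool)}

/-- The accepting runs of all accepted items ask few strings. -/
theorem exists_frozen (O : List Bool → Bool) (M : ℕ) :
    ∃ Q : Finset (List Bool), Q.card ≤ I.card * M ∧ (∀ s ∈ Q, s.length < M) ∧
      ∀ q ∈ I, qlen en q.1 q.2.length < M → AccN en O q.1 q.2 → ∃ Q' ⊆ Q,
        (∀ s ∈ Q', s.length ≤ qlen en q.1 q.2.length) ∧
        ∀ O' : List Bool → Bool, (∀ s ∈ Q', O' s = O s) → AccN en O' q.1 q.2 := by
  classical
  have h1 : ∀ q : ℕ × List Bool, ∃ Q' : Finset (List Bool), Q'.card ≤ M ∧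
      (∀ s ∈ Q', s.length < M) ∧ (∀ s ∈ Q', s.length ≤ qlen en q.1 q.2.length) ∧
      (qlen en q.1 q.2.length < M → AccN en O q.1 q.2 →
        ∀ O' : List Bool → Bool, (∀ s ∈ Q', O' s = O s) → AccN en O' q.1 q.2) := by
    intro q
    by_cases h : qlen en q.1 q.2.length < M ∧ AccN en O q.1 q.2
    · obtain ⟨Q', h2, h3, h4⟩ := acc_use' h.2
      have h5 : q.2.length + 2 ^ (en q.1).2 q.2.length = qlen en q.1 q.2.length := rfl
      refine ⟨Q', ?_, fun s hs => ?_, fun s hs => ?_, fun _ _ => h4⟩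
      · omega
      · have := h3 s hs
        omega
      · have := h3 s hs
        omega
    · exact ⟨∅, by simp, by simp, by simp, fun h2 h3 => absurd ⟨h2, h3⟩ h⟩
  choose Q' h2 h3 h4 h5 using h1
  refine ⟨I.biUnion Q', ?_, fun s hs => ?_, fun q hq h6 h7 => ?_⟩
  · exact Finset.card_biUnion_le_card_mul _ _ _ fun q _ => h2 q
  · obtain ⟨q, -, hs⟩ := Finset.mem_biUnion.1 hs
    exact h3 q s hs
  · exact ⟨Q' q, Finset.subset_biUnion_of_mem _ hq, h4 q, h5 q h6 h7⟩

/-- The chain, starting in a world of maximal rank. -/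
theorem chain (hd : Data en V ν tgd k R L I) {p : Prog} {T : ℕ} {A : Finset (List Bool)}
    (hT : I.card * R L + V k * T < 2 ^ (2 ^ ν k))
    (hAS : ∀ a ∈ A, ∀ x : List Bool, x.length = ν k → (pair x a).length + T < R L)
    {O₀ Om : List Bool → Bool} {jm : ℕ} (hw : World en V ν tgd k O₀ Om jm)
    (hjm : jm ≤ (A.card + 1) * rank en R I L Om)
    (hmax : ∀ O j, World en V ν tgd k O₀ O j → j ≤ (A.card + 1) * rank en R I L O →
      rank en R I L O ≤ rank en R I L Om)
    (hV : (A.card + 1) * (I.card + 1) ^ L ≤ V k)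
    (hcon : ∀ O, Good en V ν tgd O → (∀ s, s.length < lev ν k → O s = O₀ s) →
      ∃ a ∈ A, ¬ Wrong O p T (ν k) a) (i : ℕ) (hi : i ≤ A.card) :
    ∃ (O : List Bool → Bool) (Q B : Finset (List Bool)),
      World en V ν tgd k O₀ O (jm + i) ∧ Q.card ≤ I.card * R L + i * T ∧
      (∀ s ∈ Q, s.length < R L) ∧ B ⊆ A ∧ B.card = i ∧
      (∀ q ∈ I, qlen en q.1 q.2.length < R L → AccN en Om q.1 q.2 → ∃ Q' ⊆ Q,
        (∀ s ∈ Q', s.length ≤ qlen en q.1 q.2.length) ∧
        ∀ O' : List Bool → Bool, (∀ s ∈ Q', O' s = O s) → AccN en O' q.1 q.2) ∧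
      (∀ O' : List Bool → Bool, (∀ s ∈ Q, O' s = O s) →
        (∀ i', i' < jm + i → xs (ν k) i' ∈ WitLang O') → ∀ a ∈ B, Wrong O' p T (ν k) a) := by
  classical
  have hjV : ∀ i, i < A.card → jm + i < V k - 1 := by
    intro i hi
    have h1 := rank_lt (en := en) (R := R) (I := I) (L := L) Om
    have h2 : (A.card + 1) * (rank en R I L Om + 1) ≤ (A.card + 1) * (I.card + 1) ^ L :=
      Nat.mul_le_mul_left _ h1
    rw [Nat.mul_add, Nat.mul_one] at h2
    omega
  induction i with
  | zero =>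
    obtain ⟨Q, h1, h2, h3⟩ := exists_frozen (en := en) (I := I) Om (R L)
    exact ⟨Om, Q, ∅, hw, by omega, h2, by simp, by simp, h3, by simp⟩
  | succ i ih =>
    obtain ⟨O, Q, B, hWO, hQ, hQR, hBA, hB, hfr, hwr⟩ := ih (by omega)
    obtain ⟨a, haA, hwa⟩ := hcon O hWO.good hWO.low
    have hj := hjV i (by omega)
    have haB : a ∉ B := fun h => hwa (hwr O (fun _ _ => rfl)
      (fun i' hi' => (hWO.wit i' (by omega)).2 hi') a h)
    set x := xs (ν k) (jm + i) with hx
    have hxn : x.length = ν k := length_xs (hd.pos k)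
    have hxW : x ∉ WitLang O := fun h => by have := (hWO.wit (jm + i) hj).1 h; omega
    have hacc : Acc O p T (pair x a) := by
      by_contra hna
      exact hwa ⟨x, hxn, fun h => hna (h.1 hxW)⟩
    obtain ⟨Q', hQ', hQS, hQ'2⟩ := acc_use' hacc
    set F := Q ∪ Q' with hFdef
    have hFcard : F.card ≤ I.card * R L + (i + 1) * T := by
      refine le_trans (Finset.card_union_le _ _) ?_
      rw [Nat.succ_mul]
      omega
    have hFcard2 : F.card < 2 ^ (2 ^ ν k) := by
      have : (i + 1) * T ≤ V k * T := Nat.mul_le_mul_right _ (by omega)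
      omega
    have hFR : ∀ s ∈ F, s.length < R L := by
      intro s hs
      rcases Finset.mem_union.1 hs with hs | hs
      · exact hQR s hs
      · have h1 := hQS s hs
        have h2 := hAS a haA x hxn
        omega
    rcases step hd hWO hj hFcard2 hFR with ⟨O₂, hW2, hsame⟩ | ⟨O₃, l, hW3, hl, hsame, q, hqI, h7, h8,
      h9, h10⟩
    · refine ⟨O₂, F, insert a B, hW2, hFcard, hFR, Finset.insert_subset haA hBA,
        by rw [Finset.card_insert_of_notMem haB, hB], ?_, ?_⟩
      · intro q hq hqR hqA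
        obtain ⟨Q₁, h1, h2, h3⟩ := hfr q hq hqR hqA
        refine ⟨Q₁, h1.trans Finset.subset_union_left, h2, fun O' hO' => h3 O' fun s hs => ?_⟩
        rw [hO' s hs, hsame s (Finset.mem_union_left _ (h1 hs))]
      · intro O' hO' hX' b hb
        have hag : ∀ s ∈ F, O' s = O s := fun s hs => by rw [hO' s hs, hsame s hs]
        rw [Finset.mem_insert] at hb
        rcases hb with rfl | hb
        · refine ⟨x, hxn, fun h => ?_⟩
          have h10 : Acc O' p T (pair x b) :=
            hQ'2 O' fun s hs => hag s (Finset.mem_union_right _ hs)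
          exact h.2 h10 (hX' (jm + i) (by omega))
        · exact hwr O' (fun s hs => hag s (Finset.mem_union_left _ hs))
            (fun i' hi' => hX' i' (by omega)) b hb
    · exfalso
      have hRL : R (l + 1) ≤ R L := hd.mono (by omega)
      have h11 : rank en R I L Om < rank en R I L O₃ := by
        refine rank_lex hd.mono hl (fun q' hq' h1 h2 => ?_) hqI h7 h8 (fun h1 => ?_) h10
        · obtain ⟨Q₁, h3, h4, h5⟩ := hfr q' hq' (by omega) h2
          refine h5 O₃ fun s hs => hsame s (Finset.mem_union_left _ (h3 hs)) ?_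
          have := h4 s hs
          omega
        · obtain ⟨Q₁, h3, h4, h5⟩ := hfr q hqI (by omega) h1
          exact h9 (h5 O fun s hs => rfl)
      have h12 : (A.card + 1) * (rank en R I L Om + 1) ≤ (A.card + 1) * rank en R I L O₃ :=
        Nat.mul_le_mul_left _ h11
      rw [Nat.mul_add, Nat.mul_one] at h12
      have h13 := hmax O₃ (jm + i + 1) hW3 (by omega)
      omega

/-- One stage. -/
theorem stage (hd : Data en V ν tgd k R L I) {p : Prog} {T : ℕ} {A : Finset (List Bool)}
    (hT : I.card * R L + V k * T < 2 ^ (2 ^ ν k))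
    (hAS : ∀ a ∈ A, ∀ x : List Bool, x.length = ν k → (pair x a).length + T < R L)
    (hV : (A.card + 1) * (I.card + 1) ^ L ≤ V k) {O₀ : List Bool → Bool}
    (hgood : Good en V ν tgd O₀) :
    ∃ O, Good en V ν tgd O ∧ (∀ s, s.length < lev ν k → O s = O₀ s) ∧
      ∀ a ∈ A, Wrong O p T (ν k) a := by
  classical
  by_contra hcon
  push Not at hcon
  -- a world of maximal rank
  have hex : ∃ ρ, ∃ O j, World en V ν tgd k O₀ O j ∧ j ≤ (A.card + 1) * rank en R I L O ∧
      rank en R I L O = ρ := by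
    obtain ⟨O, hO⟩ := world_zero hd hgood
    exact ⟨_, O, 0, hO, Nat.zero_le _, rfl⟩
  have hbd : ∀ ρ, (∃ O j, World en V ν tgd k O₀ O j ∧ j ≤ (A.card + 1) * rank en R I L O ∧
      rank en R I L O = ρ) → ρ ≤ (I.card + 1) ^ L := by
    rintro ρ ⟨O, j, -, -, rfl⟩
    exact (rank_lt O).le
  obtain ⟨Om, jm, hw, hjm, hρ⟩ := Nat.findGreatest_spec (P := fun ρ => ∃ O j,
    World en V ν tgd k O₀ O j ∧ j ≤ (A.card + 1) * rank en R I L O ∧ rank en R I L O = ρ)
    (hbd _ hex.choose_spec) hex.choose_spec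
  have hmax : ∀ O j, World en V ν tgd k O₀ O j → j ≤ (A.card + 1) * rank en R I L O →
      rank en R I L O ≤ rank en R I L Om := by
    intro O j h1 h2
    rw [hρ]
    exact Nat.le_findGreatest (hbd _ ⟨O, j, h1, h2, rfl⟩) ⟨O, j, h1, h2, rfl⟩
  obtain ⟨O, Q, B, hWO, hQ, hQR, hBA, hB, hfr, hwr⟩ :=
    chain hd hT hAS hw hjm hmax hV hcon A.card le_rfl
  have hBA' : B = A := Finset.eq_of_subset_of_card_le hBA (by omega)
  obtain ⟨a, ha, hwa⟩ := hcon O hWO.good hWO.low
  refine hwa (hwr O (fun _ _ => rfl) (fun i' hi' => (hWO.wit i' ?_).2 hi') a (by rw [hBA']; exact ha))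
  have h1 := rank_lt (en := en) (R := R) (I := I) (L := L) Om
  have h2 : (A.card + 1) * (rank en R I L Om + 1) ≤ (A.card + 1) * (I.card + 1) ^ L :=
    Nat.mul_le_mul_left _ h1
  rw [Nat.mul_add, Nat.mul_one] at h2
  omega

end Pool.Agent.LibTrade92
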