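import Pool.Agent.LibSpec4.Coding

/-!
Oracles coding the complements of languages: some programs are coded under a tag counting
certain witnesses, the other programs are coded without a tag.
-/

namespace Pool.Agent.LibTrade92

open Function Pool.Agent.LibNexp
open Pool.Agent.LibSpec4 (dg length_dg dg_injective bt bt_injective length_bt ask cd ask_injective
  cd_injective length_ask length_cd length_lt_cd xs length_xs xs_injective census lev
  witLang_agree census_agree le_lev lev_mono exists_fix exists_notMem)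

/-- A bound for the length of the strings asked by program number `N` on inputs of length `m`;
the time bound is `2 ^ (en N).2 m`. -/
def qlen (en : ℕ → Prog × (ℕ → ℕ)) (N m : ℕ) : ℕ := m + 2 ^ (en N).2 m

/-- A bound for exponents. -/
def EE (en : ℕ → Prog × (ℕ → ℕ)) (N m : ℕ) : ℕ := m + (en N).2 m

/-- The length of the witnesses in the codes for program number `N` on inputs of length `m`. -/
def wl (en : ℕ → Prog × (ℕ → ℕ)) (N m : ℕ) : ℕ :=
  3 * EE en N m + 3 + 2 ^ ((3 * EE en N m + 2) ^ (N + 2) + (N + 2))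

theorem qlen_le_wl (en : ℕ → Prog × (ℕ → ℕ)) (N m : ℕ) : qlen en N m ≤ wl en N m := by
  unfold qlen wl
  have h1 : m ≤ EE en N m := by unfold EE; omega
  have h2 : (en N).2 m ≤ EE en N m := by unfold EE; omega
  have h3 : 3 * EE en N m + 2 ≤ (3 * EE en N m + 2) ^ (N + 2) := Nat.le_self_pow (by omega) _
  have h4 : 2 ^ (en N).2 m ≤ 2 ^ ((3 * EE en N m + 2) ^ (N + 2) + (N + 2)) :=
    Nat.pow_le_pow_right (by norm_num) (by omega)
  omega

theorem le_EE {en : ℕ → Prog × (ℕ → ℕ)} {N m n : ℕ} (h : n + 2 ^ n ≤ qlen en N m) :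
    n ≤ EE en N m := by
  by_contra hcon
  push Not at hcon
  unfold qlen at h
  unfold EE at hcon
  have h1 : 2 ^ (en N).2 m ≤ 2 ^ n := Nat.pow_le_pow_right (by norm_num) (by omega)
  omega

/-- Program number `N` accepts `x` in its time. -/
def AccN (en : ℕ → Prog × (ℕ → ℕ)) (O : List Bool → Bool) (N : ℕ) (x : List Bool) : Prop :=
  Acc O (en N).1 (2 ^ (en N).2 x.length) x

/-- The tag used for the computations of program number `N` asking strings of length at most
`M`; at stage `k` only the programs with `tgd k N` have a tag. -/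
noncomputable def tag (V ν : ℕ → ℕ) (tgd : ℕ → ℕ → Prop) (O : List Bool → Bool) (N M : ℕ) : ℕ := by
  classical
  exact ∑ k ∈ Finset.range (M + 1), if lev ν k ≤ M ∧ M < lev ν (k + 1) ∧ tgd k N then
    census (V k) O (ν k) else 0

variable {en : ℕ → Prog × (ℕ → ℕ)} {V ν : ℕ → ℕ} {tgd : ℕ → ℕ → Prop} {O O' : List Bool → Bool}

theorem tag_agree (hν : ∀ k, 1 ≤ ν k) {N M : ℕ} (h : ∀ s, s.length ≤ M → O s = O' s) :
    tag V ν tgd O N M = tag V ν tgd O' N M := by
  classical
  unfold tag
  refine Finset.sum_congr rfl fun k _ => ?_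
  split_ifs with h1
  · exact census_agree (hν k) fun s hs => h s (le_trans hs h1.1)
  · rfl

theorem accN_agree {N : ℕ} {x : List Bool} (h : ∀ s, s.length ≤ qlen en N x.length → O s = O' s) :
    AccN en O N x ↔ AccN en O' N x :=
  ⟨fun h1 => acc_agree h h1, fun h1 => acc_agree (fun s hs => (h s hs).symm) h1⟩

theorem tag_eq (hmono : ∀ k, lev ν k < lev ν (k + 1)) {k N M : ℕ} (h1 : lev ν k ≤ M)
    (h2 : M < lev ν (k + 1)) (hN : tgd k N) : tag V ν tgd O N M = census (V k) O (ν k) := by
  classical
  unfold tag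
  rw [Finset.sum_eq_single k]
  · rw [if_pos ⟨h1, h2, hN⟩]
  · intro k' _ hne
    rw [if_neg]
    rintro ⟨h3, h4, -⟩
    rcases Nat.lt_or_ge k k' with h | h
    · have := lev_mono hmono (show k + 1 ≤ k' by omega)
      omega
    · have := lev_mono hmono (show k' + 1 ≤ k by omega)
      omega
  · intro h3
    rw [Finset.mem_range] at h3
    have := le_lev hmono k
    omega

/-- Untagged programs have the tag zero. -/
theorem tag_zero (hmono : ∀ k, lev ν k < lev ν (k + 1)) {k N M : ℕ} (h1 : lev ν k ≤ M)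
    (h2 : M < lev ν (k + 1)) (hN : ¬ tgd k N) : tag V ν tgd O N M = 0 := by
  classical
  unfold tag
  refine Finset.sum_eq_zero fun k' _ => ?_
  rw [if_neg]
  rintro ⟨h3, h4, h5⟩
  rcases Nat.lt_trichotomy k k' with h | h | h
  · have := lev_mono hmono (show k + 1 ≤ k' by omega)
    omega
  · exact hN (h ▸ h5)
  · have := lev_mono hmono (show k' + 1 ≤ k by omega)
    omega

/-- Programs which never have a tag. -/
theorem tag_never {N M : ℕ} (hN : ∀ k, ¬ tgd k N) : tag V ν tgd O N M = 0 := by
  classical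
  unfold tag
  refine Finset.sum_eq_zero fun k' _ => ?_
  rw [if_neg]
  rintro ⟨-, -, h5⟩
  exact hN _ h5

/-- Code strings of the right length. -/
def IsCode (en : ℕ → Prog × (ℕ → ℕ)) (s : List Bool) : Prop :=
  ∃ N x r w, s = cd N x r w ∧ w.length = wl en N x.length

/-- The intended value on code strings. -/
def Val (en : ℕ → Prog × (ℕ → ℕ)) (V ν : ℕ → ℕ) (tgd : ℕ → ℕ → Prop) (O : List Bool → Bool)
    (s : List Bool) : Prop :=
  ∃ N x r w, s = cd N x r w ∧ w.length = wl en N x.length ∧
    r = tag V ν tgd O N (qlen en N x.length) ∧ ¬ AccN en O N x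

theorem val_cd {N : ℕ} {x : List Bool} {r : ℕ} {w : List Bool}
    (h : Val en V ν tgd O (cd N x r w)) :
    r = tag V ν tgd O N (qlen en N x.length) ∧ ¬ AccN en O N x := by
  obtain ⟨N', x', r', w', h1, -, h2, h3⟩ := h
  obtain ⟨rfl, rfl, rfl, rfl⟩ := cd_injective h1
  exact ⟨h2, h3⟩

theorem val_agree (hν : ∀ k, 1 ≤ ν k) {s : List Bool}
    (h : ∀ u : List Bool, u.length < s.length → O u = O' u) :
    Val en V ν tgd O s → Val en V ν tgd O' s := by
  rintro ⟨N, x, r, w, rfl, h1, h2, h3⟩
  have hag : ∀ u : List Bool, u.length ≤ qlen en N x.length → O u = O' u := by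
    intro u hu
    refine h u ?_
    have := length_lt_cd N x r w
    have := qlen_le_wl en N x.length
    omega
  refine ⟨N, x, r, w, rfl, h1, ?_, ?_⟩
  · rw [h2, tag_agree hν hag]
  · rwa [accN_agree hag] at h3

/-- `O` is the completion of `P` with the strings of `F` and those shorter than `ℓ` frozen. -/
structure Compl (en : ℕ → Prog × (ℕ → ℕ)) (V ν : ℕ → ℕ) (tgd : ℕ → ℕ → Prop)
    (P : List Bool → Bool) (F : Finset (List Bool)) (ℓ : ℕ) (O : List Bool → Bool) : Prop where
  same : ∀ s, (s.length < ℓ ∨ s ∈ F ∨ ¬ IsCode en s) → O s = P s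
  code : ∀ s, ℓ ≤ s.length → s ∉ F → IsCode en s → (O s = true ↔ Val en V ν tgd O s)

/-- Completion of an oracle by coding. -/
theorem comp (hν : ∀ k, 1 ≤ ν k) (P : List Bool → Bool) (F : Finset (List Bool)) (ℓ : ℕ) :
    ∃ O : List Bool → Bool, Compl en V ν tgd P F ℓ O := by
  classical
  obtain ⟨O, hO⟩ := exists_fix (fun O s => if s.length < ℓ ∨ s ∈ F ∨ ¬ IsCode en s then P s
    else decide (Val en V ν tgd O s)) (by
      intro O O' s h
      by_cases h1 : s.length < ℓ ∨ s ∈ F ∨ ¬ IsCode en s
      · simp only [if_pos h1]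
      · simp only [if_neg h1]
        exact decide_eq_decide.2 ⟨val_agree hν h, val_agree hν fun u hu => (h u hu).symm⟩)
  refine ⟨O, ⟨fun s hs => ?_, fun s h1 h2 h3 => ?_⟩⟩
  · have := congrFun hO s
    simp only [if_pos hs] at this
    exact this.symm
  · have h4 : ¬ (s.length < ℓ ∨ s ∈ F ∨ ¬ IsCode en s) := by
      rintro (h | h | h)
      · omega
      · exact h2 h
      · exact h h3
    have := congrFun hO s
    simp only [if_neg h4] at this
    rw [← this, decide_eq_true_iff]

/-- Completions with the same frozen strings below a length agree below this length. -/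
theorem compl_unique (hν : ∀ k, 1 ≤ ν k) {P : List Bool → Bool} {F F' : Finset (List Bool)}
    {ℓ R : ℕ} (hO : Compl en V ν tgd P F ℓ O) (hO' : Compl en V ν tgd P F' ℓ O')
    (hF : ∀ s : List Bool, s.length < R → (s ∈ F ↔ s ∈ F')) :
    ∀ s : List Bool, s.length < R → O s = O' s := by
  suffices h : ∀ n, ∀ s : List Bool, s.length = n → s.length < R → O s = O' s from
    fun s hs => h _ s rfl hs
  intro n
  induction n using Nat.strong_induction_on with
  | _ n ih =>
    intro s hn hs
    have hlt : ∀ u : List Bool, u.length < s.length → O u = O' u := fun u hu =>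
      ih u.length (by omega) u rfl (by omega)
    by_cases h1 : s.length < ℓ ∨ s ∈ F ∨ ¬ IsCode en s
    · have h2 : s.length < ℓ ∨ s ∈ F' ∨ ¬ IsCode en s := by rwa [← hF s hs]
      rw [hO.same s h1, hO'.same s h2]
    · have h2 : ¬ (s.length < ℓ ∨ s ∈ F' ∨ ¬ IsCode en s) := by rwa [← hF s hs]
      push Not at h1 h2
      have h3 := hO.code s h1.1 h1.2.1 h1.2.2
      have h4 := hO'.code s h2.1 h2.2.1 h2.2.2
      have h5 : Val en V ν tgd O s ↔ Val en V ν tgd O' s :=
        ⟨val_agree hν hlt, val_agree hν fun u hu => (hlt u hu).symm⟩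
      exact Bool.eq_iff_iff.2 (h3.trans (h5.trans h4.symm))

/-- Oracles coding all complements correctly. -/
structure Good (en : ℕ → Prog × (ℕ → ℕ)) (V ν : ℕ → ℕ) (tgd : ℕ → ℕ → Prop)
    (O : List Bool → Bool) : Prop where
  sound : ∀ N x r w, w.length = wl en N x.length → O (cd N x r w) = true →
    r = tag V ν tgd O N (qlen en N x.length) → ¬ AccN en O N x
  complete : ∀ N x, ¬ AccN en O N x → ∃ w : List Bool, w.length = wl en N x.length ∧
    O (cd N x (tag V ν tgd O N (qlen en N x.length)) w) = true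
  codes : ∀ s, O (false :: s) = true → IsCode en (false :: s)

theorem good_comp (hν : ∀ k, 1 ≤ ν k) {O₁ P : List Bool → Bool} {F : Finset (List Bool)} {ℓ : ℕ}
    (hg : Good en V ν tgd O₁) (hc : Compl en V ν tgd P F ℓ O)
    (hP1 : ∀ s, s.length < ℓ → P s = O₁ s) (hP2 : ∀ s ∈ F, P s = O₁ s)
    (hP3 : ∀ s, P (false :: s) = true → IsCode en (false :: s))
    (hF : ∀ N x r w, cd N x r w ∈ F → w.length = wl en N x.length → ℓ ≤ qlen en N x.length →
      r = tag V ν tgd O N (qlen en N x.length) → P (cd N x r w) = true → ¬ AccN en O N x)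
    (hcard : F.card < 2 ^ ℓ) : Good en V ν tgd O := by
  have h1 := hc.same
  have h2 := hc.code
  have hlow : ∀ s, s.length < ℓ → O s = O₁ s := fun s hs => by rw [h1 s (Or.inl hs), hP1 s hs]
  have hlow' : ∀ {M : ℕ}, M < ℓ → ∀ s : List Bool, s.length ≤ M → O s = O₁ s :=
    fun hM s hs => hlow s (by omega)
  refine ⟨?_, ?_, ?_⟩
  · intro N x r w hw hO hr
    have hqw := qlen_le_wl en N x.length
    set M := qlen en N x.length with hM
    by_cases hMl : M < ℓ
    · by_cases h3 : (cd N x r w).length < ℓ ∨ cd N x r w ∈ F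
      · have h4 : O₁ (cd N x r w) = true := by
          rcases h3 with h3 | h3
          · rw [← hlow _ h3]; exact hO
          · rw [← hP2 _ h3, ← h1 _ (Or.inr (Or.inl h3))]; exact hO
        rw [tag_agree hν (hlow' hMl)] at hr
        rw [accN_agree (hlow' hMl)]
        exact hg.sound N x r w hw h4 hr
      · push Not at h3
        exact (val_cd ((h2 _ h3.1 h3.2 ⟨N, x, r, w, rfl, hw⟩).1 hO)).2
    · push Not at hMl
      have h3 : ℓ ≤ (cd N x r w).length := by
        have := length_lt_cd N x r w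
        omega
      by_cases h4 : cd N x r w ∈ F
      · rw [h1 _ (Or.inr (Or.inl h4))] at hO
        exact hF N x r w h4 hw hMl hr hO
      · exact (val_cd ((h2 _ h3 h4 ⟨N, x, r, w, rfl, hw⟩).1 hO)).2
  · intro N x hN
    have hqw := qlen_le_wl en N x.length
    set M := qlen en N x.length with hM
    by_cases hMl : M < ℓ
    · rw [accN_agree (hlow' hMl)] at hN
      obtain ⟨w, hw, hO⟩ := hg.complete N x hN
      refine ⟨w, hw, ?_⟩
      rw [tag_agree hν (hlow' hMl)]
      by_cases h3 : (cd N x (tag V ν tgd O₁ N M) w).length < ℓ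
      · rw [hlow _ h3]; exact hO
      · by_cases h4 : cd N x (tag V ν tgd O₁ N M) w ∈ F
        · rw [h1 _ (Or.inr (Or.inl h4)), hP2 _ h4]; exact hO
        · rw [h2 _ (by omega) h4 ⟨N, x, _, w, rfl, hw⟩]
          exact ⟨N, x, _, w, rfl, hw, (tag_agree hν (hlow' hMl)).symm,
            by rw [accN_agree (hlow' hMl)]; exact hN⟩
    · push Not at hMl
      obtain ⟨w, hw, h4⟩ := exists_notMem (N := N) (x := x) (r := tag V ν tgd O N M)
        (m := wl en N x.length)
        (F := F) (lt_of_lt_of_le hcard (Nat.pow_le_pow_right (by norm_num) (le_trans hMl hqw)))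
      refine ⟨w, hw, ?_⟩
      have h3 : ℓ ≤ (cd N x (tag V ν tgd O N M) w).length := by
        have := length_lt_cd N x (tag V ν tgd O N M) w
        omega
      rw [h2 _ h3 h4 ⟨N, x, _, w, rfl, hw⟩]
      exact ⟨N, x, _, w, rfl, hw, rfl, hN⟩
  · intro s hs
    by_contra hcode
    rw [h1 _ (Or.inr (Or.inr hcode))] at hs
    exact hcode (hP3 s hs)

end Pool.Agent.LibTrade92
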