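import Pool.Agent.LibTrade92.Chain

/-!
The limit of the stages.
-/

namespace Pool.Agent.LibTrade92

open Function Filter Pool.Agent.LibNexp
open Pool.Agent.LibSpec4 (dg length_dg dg_injective bt bt_injective length_bt ask cd ask_injective
  cd_injective length_ask length_cd length_lt_cd xs length_xs xs_injective census lev
  witLang_agree census_agree le_lev lev_mono exists_fix exists_notMem xs_append census_eq acc_use')

variable {en : ℕ → Prog × (ℕ → ℕ)} {V ν : ℕ → ℕ} {tgd : ℕ → ℕ → Prop}

theorem exists_good (hν : ∀ k, 1 ≤ ν k) : ∃ O, Good en V ν tgd O := by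
  obtain ⟨O, hc⟩ := comp (en := en) (V := V) (tgd := tgd) hν (fun _ => false) ∅ 0
  have h1 := hc.same
  have h2 := hc.code
  refine ⟨O, ⟨?_, ?_, ?_⟩⟩
  · intro N x r w hw hO _
    exact (val_cd ((h2 _ (Nat.zero_le _) (by simp) ⟨N, x, r, w, rfl, hw⟩).1 hO)).2
  · intro N x hN
    refine ⟨List.replicate (wl en N x.length) false, by simp, ?_⟩
    rw [h2 _ (Nat.zero_le _) (by simp) ⟨N, x, _, _, rfl, by simp⟩]
    exact ⟨N, x, _, _, rfl, by simp, rfl, hN⟩
  · intro s hs
    by_contra hcode
    rw [h1 _ (Or.inr (Or.inr hcode))] at hs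
    exact absurd hs (by simp)

theorem exists_oracle {R : ℕ → ℕ → ℕ} {L : ℕ → ℕ} {I : ℕ → Finset (ℕ × List Bool)}
    (hd : ∀ k, Data en V ν tgd k (R k) (L k) (I k)) (p : ℕ → Prog) (T : ℕ → ℕ)
    (A : ℕ → Finset (List Bool))
    (hT : ∀ k, (I k).card * R k (L k) + V k * T k < 2 ^ (2 ^ ν k))
    (hAS : ∀ k, ∀ a ∈ A k, ∀ x : List Bool, x.length = ν k →
      (pair x a).length + T k < R k (L k))
    (hV : ∀ k, ((A k).card + 1) * ((I k).card + 1) ^ L k ≤ V k) :
    ∃ O, Good en V ν tgd O ∧ ∀ k, ∀ a ∈ A k, Wrong O (p k) (T k) (ν k) a := by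
  have hmono : ∀ k, lev ν k < lev ν (k + 1) := (hd 0).levlt
  have hν : ∀ k, 1 ≤ ν k := (hd 0).pos
  have hstep : ∀ (k : ℕ) (O₀ : {O // Good en V ν tgd O}), ∃ O : {O // Good en V ν tgd O},
      (∀ s, s.length < lev ν k → O.1 s = O₀.1 s) ∧
      ∀ a ∈ A k, Wrong O.1 (p k) (T k) (ν k) a := by
    intro k O₀
    obtain ⟨O, h1, h2, h3⟩ := stage (hd k) (p := p k) (hT k) (hAS k) (hV k) O₀.2
    exact ⟨⟨O, h1⟩, h2, h3⟩
  choose st hst1 hst2 using hstep
  obtain ⟨Ob, hOb⟩ := exists_good (en := en) (V := V) (tgd := tgd) hν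
  set G : ℕ → {O // Good en V ν tgd O} := fun k => Nat.rec ⟨Ob, hOb⟩ (fun k prev => st k prev) k
    with hG
  have hG1 : ∀ k, G (k + 1) = st k (G k) := fun k => rfl
  have hag : ∀ k d, ∀ s : List Bool, s.length < lev ν k → (G (k + 1 + d)).1 s = (G k).1 s := by
    intro k d
    induction d with
    | zero => intro s hs; rw [add_zero, hG1]; exact hst1 k _ s hs
    | succ d ih =>
      intro s hs
      rw [show k + 1 + (d + 1) = (k + 1 + d) + 1 by ring, hG1,
        hst1 _ _ s (lt_of_lt_of_le hs (lev_mono hmono (by omega))), ih s hs]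
  have hag2 : ∀ k k', k ≤ k' → ∀ s : List Bool, s.length < lev ν k → (G k').1 s = (G k).1 s := by
    intro k k' hkk s hs
    rcases Nat.eq_or_lt_of_le hkk with rfl | h
    · rfl
    · obtain ⟨d, rfl⟩ : ∃ d, k' = k + 1 + d := ⟨k' - (k + 1), by omega⟩
      exact hag k d s hs
  set O : List Bool → Bool := fun s => (G (s.length + 1)).1 s with hO
  have hOG : ∀ k, ∀ s : List Bool, s.length < lev ν k → O s = (G k).1 s := by
    intro k s hs
    have h1 : s.length < lev ν (s.length + 1) := by
      have := le_lev hmono (s.length + 1)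
      omega
    rcases Nat.le_total k (s.length + 1) with h | h
    · exact hag2 _ _ h s hs
    · exact (hag2 _ _ h s h1).symm
  refine ⟨O, ⟨?_, ?_, ?_⟩, ?_⟩
  · intro N x r w hw h1 h2
    have h3 : ∀ s : List Bool, s.length ≤ (cd N x r w).length →
        O s = (G ((cd N x r w).length + 1)).1 s := fun s hs => hOG ((cd N x r w).length + 1) s (by
      have := le_lev hmono ((cd N x r w).length + 1)
      omega)
    have h4 : ∀ s : List Bool, s.length ≤ qlen en N x.length →
        O s = (G ((cd N x r w).length + 1)).1 s := fun s hs => h3 s (by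
      have := length_lt_cd N x r w
      have := qlen_le_wl en N x.length
      omega)
    rw [tag_agree hν h4] at h2
    rw [accN_agree h4]
    rw [h3 _ le_rfl] at h1
    exact (G ((cd N x r w).length + 1)).2.sound N x r w hw h1 h2
  · intro N x hN
    set M := qlen en N x.length with hM
    have h4 : ∀ k, M + 1 ≤ k → ∀ s : List Bool, s.length ≤ M → O s = (G k).1 s := fun k hk s hs =>
      hOG _ s (by
        have := le_lev hmono k
        omega)
    set K := N + 4 * x.length + 2 * (bt (tag V ν tgd O N M)).length + M + wl en N x.length + 9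
      with hK
    have hKM : M + 1 ≤ K := by omega
    rw [accN_agree (h4 K hKM)] at hN
    obtain ⟨w, hw, h1⟩ := (G K).2.complete N x hN
    refine ⟨w, hw, ?_⟩
    rw [← tag_agree hν (h4 K hKM)] at h1
    rw [hOG K]
    · exact h1
    · rw [length_cd, hw]
      have := le_lev hmono K
      omega
  · intro s hs
    exact (G ((false :: s).length + 1)).2.codes s hs
  · intro k a ha
    have h1 := hst2 k (G k) a ha
    rw [← hG1] at h1
    have h2 : ∀ s : List Bool, s.length < lev ν (k + 1) → (G (k + 1)).1 s = O s :=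
      fun s hs => (hOG _ s hs).symm
    obtain ⟨x, hx, h3⟩ := h1
    refine ⟨x, hx, fun h4 => h3 ?_⟩
    have e1 : x ∈ WitLang (G (k + 1)).1 ↔ x ∈ WitLang O := witLang_agree fun s hs => h2 s (by
      rw [hx] at hs
      have := hmono k
      unfold lev at this ⊢
      omega)
    have e2 : Acc (G (k + 1)).1 (p k) (T k) (pair x a) ↔
        Acc O (p k) (T k) (pair x a) := by
      have h5 : ∀ s : List Bool, s.length ≤ (pair x a).length + T k →
          (G (k + 1)).1 s = O s := fun s hs => h2 s (by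
        have := hAS k a ha x hx
        have := (hd k).last
        omega)
      exact ⟨acc_agree h5, acc_agree fun s hs => (h5 s hs).symm⟩
    rw [e1, e2]
    exact h4

end Pool.Agent.LibTrade92
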