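import Pool.Agent.LibTrade92.Use

/-!
The numbers of the construction.
-/

namespace Pool.Agent.LibTrade92

open Function Filter
open Pool.Agent.LibNexp hiding lev lev_mono
open Pool.Agent.LibSpec4 (lev short mem_short card_short lev_mono)

/-- The inputs of the programs without tag which may be visible at the stage. -/
def vis (h : ℕ → ℕ) (K n : ℕ) : Finset (List Bool) :=
  (short (n ^ K)).filter fun x => h x.length < n ^ K ∧ n ≤ (h x.length + 2) ^ (K + 2)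

theorem mem_vis {h : ℕ → ℕ} (hh : ∀ n, n ≤ h n) {K n : ℕ} {x : List Bool} :
    x ∈ vis h K n ↔ h x.length < n ^ K ∧ n ≤ (h x.length + 2) ^ (K + 2) := by
  unfold vis
  rw [Finset.mem_filter, mem_short]
  constructor
  · exact fun h => h.2
  · intro h1
    exact ⟨lt_of_le_of_lt (hh _) h1.1, h1⟩

theorem card_vis (h : ℕ → ℕ) (K n : ℕ) : (vis h K n).card < 2 ^ (n ^ K) :=
  lt_of_le_of_lt (Finset.card_filter_le _ _) (card_short _)

/-- The levels. -/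
def lv (n l : ℕ) : ℕ := 2 ^ (n ^ 2 ^ l)

/-- The items. -/
def itm (h : ℕ → ℕ) (c n : ℕ) : Finset (ℕ × List Bool) :=
  Finset.range (2 ^ (c + 3)) ×ˢ vis h (2 ^ (c + 3)) n

theorem card_itm (h : ℕ → ℕ) (c n : ℕ) :
    (itm h c n).card = 2 ^ (c + 3) * (vis h (2 ^ (c + 3)) n).card := by
  unfold itm
  rw [Finset.card_product, Finset.card_range]

theorem qlen_le (en : ℕ → Prog × (ℕ → ℕ)) (N m : ℕ) : qlen en N m ≤ 2 ^ EE en N m := by
  unfold qlen EE
  rw [pow_add]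
  have h1 : m + 1 ≤ 2 ^ m := Nat.lt_two_pow_self
  have h2 : 1 ≤ 2 ^ (en N).2 m := Nat.one_le_two_pow
  nlinarith

theorem lv_gap {en : ℕ → Prog × (ℕ → ℕ)} {N m n l : ℕ} (h : lv n l ≤ qlen en N m) :
    lv n (l + 1) ≤ wl en N m := by
  unfold lv at h ⊢
  have h1 : n ^ 2 ^ l ≤ EE en N m :=
    (Nat.pow_le_pow_iff_right (by norm_num)).1 (le_trans h (qlen_le en N m))
  have h2 : n ^ 2 ^ (l + 1) ≤ (3 * EE en N m + 2) ^ (N + 2) + (N + 2) := by
    have h3 : n ^ 2 ^ (l + 1) = (n ^ 2 ^ l) ^ 2 := by rw [pow_succ 2 l, pow_mul]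
    rw [h3]
    calc (n ^ 2 ^ l) ^ 2 ≤ (3 * EE en N m + 2) ^ 2 := Nat.pow_le_pow_left (by omega) 2
      _ ≤ (3 * EE en N m + 2) ^ (N + 2) := Nat.pow_le_pow_right (by omega) (by omega)
      _ ≤ _ := Nat.le_add_right _ _
  have h4 : 2 ^ (n ^ 2 ^ (l + 1)) ≤ 2 ^ ((3 * EE en N m + 2) ^ (N + 2) + (N + 2)) :=
    Nat.pow_le_pow_right (by norm_num) h2
  unfold wl
  omega

theorem lv_invisible {en : ℕ → Prog × (ℕ → ℕ)} {N m n L : ℕ} (hn : n ≤ EE en N m)
    (hN : 2 ^ L ≤ N) : lv n L ≤ wl en N m := by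
  unfold lv
  have h2 : n ^ 2 ^ L ≤ (3 * EE en N m + 2) ^ (N + 2) + (N + 2) := by
    calc n ^ 2 ^ L ≤ (3 * EE en N m + 2) ^ 2 ^ L := Nat.pow_le_pow_left (by omega) _
      _ ≤ (3 * EE en N m + 2) ^ (N + 2) := Nat.pow_le_pow_right (by omega) (by omega)
      _ ≤ _ := Nat.le_add_right _ _
  have h4 : 2 ^ (n ^ 2 ^ L) ≤ 2 ^ ((3 * EE en N m + 2) ^ (N + 2) + (N + 2)) :=
    Nat.pow_le_pow_right (by norm_num) h2
  unfold wl
  omega

theorem lv_mono {n : ℕ} (hn : 1 ≤ n) : Monotone (lv n) := by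
  intro a b hab
  unfold lv
  exact Nat.pow_le_pow_right (by norm_num) (Nat.pow_le_pow_right hn
    (Nat.pow_le_pow_right (by norm_num) hab))

/-- A visible input. -/
theorem visible {h : ℕ → ℕ} (hh : ∀ n, n ≤ h n) {e : ℕ → Prog × ℕ × Bool}
    (he : ∀ N, (e N).2.1 ≤ N) {N n L : ℕ} {x : List Bool} (hN : N < 2 ^ L)
    (hb : (e N).2.2 = false) (h1 : n ≤ EE (enc h e) N x.length)
    (h2 : wl (enc h e) N x.length < lv n L) : x ∈ vis h (2 ^ L) n := by
  rw [mem_vis hh]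
  have hE : EE (enc h e) N x.length =
      x.length + (h x.length ^ ((e N).2.1 + 1) + ((e N).2.1 + 1)) := by
    unfold EE enc
    simp [hb]
  have hc := he N
  set a := h x.length with ha
  have hxa : x.length ≤ a := hh _
  constructor
  · have h3 : (3 * EE (enc h e) N x.length + 2) ^ (N + 2) < n ^ 2 ^ L := by
      unfold wl lv at h2
      have h4 : 2 ^ ((3 * EE (enc h e) N x.length + 2) ^ (N + 2) + (N + 2)) < 2 ^ (n ^ 2 ^ L) := by
        omega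
      have h5 := (Nat.pow_lt_pow_iff_right (by norm_num : 1 < 2)).1 h4
      omega
    have h4 : EE (enc h e) N x.length ≤ (3 * EE (enc h e) N x.length + 2) ^ (N + 2) :=
      le_trans (by omega) (Nat.le_self_pow (by omega) _)
    have h5 : a ≤ EE (enc h e) N x.length := by
      rw [hE]
      have : a ≤ a ^ ((e N).2.1 + 1) := Nat.le_self_pow (by omega) _
      omega
    omega
  · refine le_trans h1 ?_
    rw [hE]
    have h3 : a ^ ((e N).2.1 + 1) ≤ (a + 2) ^ 2 ^ L :=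
      le_trans (Nat.pow_le_pow_left (by omega) _) (Nat.pow_le_pow_right (by omega) (by omega))
    have h4 : (e N).2.1 + 1 ≤ (a + 2) ^ 2 ^ L := by
      calc (e N).2.1 + 1 ≤ 2 ^ L := by omega
        _ ≤ 2 ^ 2 ^ L := Nat.lt_two_pow_self.le
        _ ≤ (a + 2) ^ 2 ^ L := Nat.pow_le_pow_left (by omega) _
    have h5 : x.length ≤ (a + 2) ^ 2 ^ L :=
      le_trans (by omega) (Nat.le_self_pow (by positivity) (a + 2))
    have h6 : (a + 2) ^ (2 ^ L + 2) = (a + 2) ^ 2 ^ L * (a + 2) ^ 2 := by rw [pow_add]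
    have h7 : 4 ≤ (a + 2) ^ 2 := by nlinarith
    have h8 : (a + 2) ^ 2 ^ L * 4 ≤ (a + 2) ^ 2 ^ L * (a + 2) ^ 2 := Nat.mul_le_mul_left _ h7
    omega

/-- Which programs have a tag. -/
def tg (e : ℕ → Prog × ℕ × Bool) (c : ℕ → ℕ) (k N : ℕ) : Prop :=
  (e N).2.2 = true ∧ N < 2 ^ (c k + 3)

theorem lev_lt {c ν : ℕ → ℕ} (hν : ∀ k, 1 ≤ ν k) (h : ∀ k, lv (ν k) (c k + 3) < ν (k + 1)) (k : ℕ) :
    lev ν k < lev ν (k + 1) := by
  have h1 := h k
  have h2 : ν k < ν (k + 1) := by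
    refine lt_of_le_of_lt ?_ h1
    unfold lv
    calc ν k ≤ ν k ^ 2 ^ (c k + 3) := Nat.le_self_pow (by positivity) _
      _ ≤ 2 ^ (ν k ^ 2 ^ (c k + 3)) := Nat.lt_two_pow_self.le
  have h3 : 2 ^ ν k ≤ 2 ^ ν (k + 1) := Nat.pow_le_pow_right (by norm_num) h2.le
  unfold lev
  omega

theorem data_of {h : ℕ → ℕ} (hh : ∀ n, n ≤ h n) {e : ℕ → Prog × ℕ × Bool}
    (he : ∀ N, (e N).2.1 ≤ N) {V ν c : ℕ → ℕ} (hν : ∀ k, 1 ≤ ν k)
    (hV : ∀ k, V k ≤ 2 ^ (ν k - 1)) (hS : ∀ k, lv (ν k) (c k + 3) < ν (k + 1)) (k : ℕ) :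
    Data (enc h e) V ν (tg e c) k (lv (ν k)) (c k + 3) (itm h (c k) (ν k)) where
  pos := hν
  cand := hV
  levlt := lev_lt hν hS
  mono := lv_mono (hν k)
  first := by
    unfold lv lev
    rw [pow_zero, pow_one]
    omega
  last := le_trans (hS k).le (Nat.le_add_right _ _)
  gap := fun N m l _ h1 => lv_gap h1
  items := by
    intro N x h1 h2 h3
    have hn : ν k ≤ EE (enc h e) N x.length := le_EE h2
    have hN : N < 2 ^ (c k + 3) := by
      by_contra hge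
      have := lv_invisible hn (not_lt.1 hge)
      omega
    have hb : (e N).2.2 = false := by
      by_contra hb
      rw [Bool.not_eq_false] at hb
      exact h1 ⟨hb, hN⟩
    unfold itm
    rw [Finset.mem_product]
    exact ⟨Finset.mem_range.2 hN, visible hh he hN hb hn h3⟩

/-! ### Growth -/

/-- The time bound used at length `n` for a requirement. -/
def tb (c n : ℕ) : ℕ := 2 ^ ((3 * n + 2) ^ c + c)

theorem poly_lt_two_pow (a b : ℕ) : ∀ᶠ n : ℕ in atTop, (n + b) ^ a + b < 2 ^ n := by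
  have h1 := eventually_large (a + b + 1)
  filter_upwards [h1, eventually_ge_atTop (b + 1)] with n h2 h3
  have h4 : (n + b) ^ a ≤ (3 * n + 2) ^ (a + b + 1) :=
    le_trans (Nat.pow_le_pow_left (by omega) a) (Nat.pow_le_pow_right (by omega) (by omega))
  omega

/-- The machine asks only strings below the last level. -/
theorem sb_lt (c : ℕ) : ∀ᶠ n : ℕ in atTop, 3 * n + 2 + tb c n < lv n (c + 3) := by
  filter_upwards [eventually_ge_atTop (c + 6)] with n hn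
  unfold tb lv
  have h1 : (3 * n + 2) ^ c ≤ n ^ (2 * c) := by
    rw [pow_mul]
    refine Nat.pow_le_pow_left ?_ c
    nlinarith
  have h2 : 2 * c + 3 ≤ 2 ^ (c + 3) := by
    have : c < 2 ^ c := Nat.lt_two_pow_self
    rw [pow_add]
    omega
  have h3 : n ^ (2 * c + 3) ≤ n ^ 2 ^ (c + 3) := Nat.pow_le_pow_right (by omega) h2
  have h4 : n ^ (2 * c + 3) = n ^ (2 * c) * n ^ 3 := by rw [pow_add]
  have h5 : 1 ≤ n ^ (2 * c) := Nat.one_le_pow _ _ (by omega)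
  have h6 : 6 * n ≤ n ^ 3 := by
    have : n ^ 3 = n * (n * n) := by ring
    rw [this]
    nlinarith
  have h7 : n ^ (2 * c) + 3 * n + c + 3 ≤ n ^ (2 * c) * n ^ 3 := by
    have h8 : n ^ (2 * c) * (6 * n) ≤ n ^ (2 * c) * n ^ 3 := Nat.mul_le_mul_left _ h6
    nlinarith
  have h9 : 2 ^ ((3 * n + 2) ^ c + c) * 2 ^ (3 * n + 3) ≤ 2 ^ (n ^ 2 ^ (c + 3)) := by
    rw [← pow_add]
    exact Nat.pow_le_pow_right (by norm_num) (by omega)
  have h10 : 3 * n + 3 < 2 ^ (3 * n + 3) := Nat.lt_two_pow_self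
  have h11 : 1 ≤ 2 ^ ((3 * n + 2) ^ c + c) := Nat.one_le_two_pow
  nlinarith

/-- The number of frozen strings is small. -/
theorem frozen_lt (h : ℕ → ℕ) (c : ℕ) : ∀ᶠ n : ℕ in atTop, ∀ V, V ≤ 2 ^ (n - 1) →
    (itm h c n).card * lv n (c + 3) + V * tb c n < 2 ^ 2 ^ n := by
  filter_upwards [poly_lt_two_pow (2 ^ (c + 3) + 1) (c + 6), eventually_large c,
    eventually_ge_atTop 4] with n h1 h2 h3 V hV
  rw [card_itm]
  have h4 := card_vis h (2 ^ (c + 3)) n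
  unfold lv tb
  set K := 2 ^ (c + 3) with hK
  have h5 : n ^ K + n ^ K + (c + 3) + 1 ≤ 2 ^ n := by
    have h6 : (n + (c + 6)) ^ (K + 1) = (n + (c + 6)) ^ K * (n + (c + 6)) := pow_succ _ _
    have h7 : n ^ K ≤ (n + (c + 6)) ^ K := Nat.pow_le_pow_left (by omega) K
    have h8 : (n + (c + 6)) ^ K * 6 ≤ (n + (c + 6)) ^ K * (n + (c + 6)) :=
      Nat.mul_le_mul_left _ (by omega)
    omega
  have h6 : K * (vis h K n).card * 2 ^ (n ^ K) < 2 ^ (c + 3) * 2 ^ (n ^ K) * 2 ^ (n ^ K) := by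
    have hKpos : 0 < 2 ^ (c + 3) := by positivity
    rw [← hK] at hKpos ⊢
    have : 0 < 2 ^ (n ^ K) := by positivity
    have h7 : K * (vis h K n).card < K * 2 ^ (n ^ K) := Nat.mul_lt_mul_of_pos_left h4 hKpos
    exact Nat.mul_lt_mul_of_pos_right h7 this
  have h7 : 2 ^ (c + 3) * 2 ^ (n ^ K) * 2 ^ (n ^ K) ≤ 2 ^ (2 ^ n - 1) := by
    rw [← pow_add, ← pow_add]
    exact Nat.pow_le_pow_right (by norm_num) (by omega)
  have h8 : V * 2 ^ ((3 * n + 2) ^ c + c) ≤ 2 ^ (2 ^ n - 1) := by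
    calc V * 2 ^ ((3 * n + 2) ^ c + c) ≤ 2 ^ (n - 1) * 2 ^ ((3 * n + 2) ^ c + c) :=
          Nat.mul_le_mul_right _ hV
      _ = 2 ^ (n - 1 + ((3 * n + 2) ^ c + c)) := (pow_add _ _ _).symm
      _ ≤ 2 ^ (2 ^ n - 1) := Nat.pow_le_pow_right (by norm_num) (by omega)
  have h9 : 2 ^ 2 ^ n = 2 ^ (2 ^ n - 1) + 2 ^ (2 ^ n - 1) := by
    have : 2 ^ n = (2 ^ n - 1) + 1 := by
      have : 1 ≤ 2 ^ n := Nat.one_le_two_pow
      omega
    conv_lhs => rw [this]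
    rw [pow_succ]
    omega
  omega

end Pool.Agent.LibTrade92
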