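import Mathlib

/-!
[T3 R1] Weighted sums.
-/

namespace Pool.Agent.LibTrade92

/-- The weighted sum of the counts of the levels; the first level has the largest weight. -/
def wsum (D L : ℕ) (a : ℕ → ℕ) : ℕ := ∑ l ∈ Finset.range L, a l * (D + 1) ^ (L - 1 - l)

theorem wsum_succ (D L : ℕ) (a : ℕ → ℕ) :
    wsum D (L + 1) a = (D + 1) * wsum D L a + a L := by
  unfold wsum
  rw [Finset.sum_range_succ, Finset.mul_sum]
  congr 1
  · refine Finset.sum_congr rfl fun l hl => ?_
    have hl' := Finset.mem_range.1 hl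
    have h1 : L + 1 - 1 - l = (L - 1 - l) + 1 := by omega
    rw [h1, pow_succ]
    ring
  · simp

theorem wsum_lt {D : ℕ} {a : ℕ → ℕ} (h : ∀ l, a l ≤ D) (L : ℕ) : wsum D L a < (D + 1) ^ L := by
  induction L with
  | zero => simp [wsum]
  | succ L ih =>
    rw [wsum_succ, pow_succ]
    have h1 := h L
    nlinarith

/-- Lexicographic comparison. -/
theorem wsum_lex {D l : ℕ} {a b : ℕ → ℕ} (ha : ∀ i, a i ≤ D)
    (h1 : ∀ i, i < l → a i ≤ b i) (h2 : a l < b l) {L : ℕ} (hl : l < L) :
    wsum D L a < wsum D L b := by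
  have key : ∀ j, j ≤ l → wsum D j a ≤ wsum D j b := by
    intro j hj
    unfold wsum
    refine Finset.sum_le_sum fun i hi => ?_
    have := Finset.mem_range.1 hi
    exact Nat.mul_le_mul_right _ (h1 i (by omega))
  have key2 : ∀ d, wsum D (l + 1 + d) a < wsum D (l + 1 + d) b := by
    intro d
    induction d with
    | zero =>
      rw [add_zero, wsum_succ, wsum_succ]
      have := Nat.mul_le_mul_left (D + 1) (key l le_rfl)
      omega
    | succ d ih =>
      rw [← add_assoc, wsum_succ, wsum_succ]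
      have h3 := ha (l + 1 + d)
      have h4 : (D + 1) * (wsum D (l + 1 + d) a + 1) ≤ (D + 1) * wsum D (l + 1 + d) b :=
        Nat.mul_le_mul_left _ ih
      rw [Nat.mul_add, Nat.mul_one] at h4
      omega
  obtain ⟨d, rfl⟩ : ∃ d, L = l + 1 + d := ⟨L - (l + 1), by omega⟩
  exact key2 d

end Pool.Agent.LibTrade92
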