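import Pool.Agent.LibTrade92.Engine
import Pool.Agent.LibSpec30.Census
import Pool.Agent.LibNexp55.Main

/-!
The oracles.
-/

namespace Pool.Agent.LibTrade92

open Function Filter
open Pool.Agent.LibNexp hiding lev lev_mono CodeLang exists_prog'
open Pool.Agent.LibSpec4 (lev short mem_short card_short lev_mono bt CodeLang exists_prog'
  length_bt)
open Pool.Agent.LibDown92 (NH Closed Graph)
open Pool.Agent.LibSpec30 (Enough)
open Pool.Agent.LibNexp55 (BH levels)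

/-- Enumerations with all kinds of programs. -/
theorem exists_enum : ∃ e : ℕ → Prog × ℕ × Bool, Surjective e ∧ ∀ N, (e N).2.1 ≤ N := by
  have : Nonempty Prog := ⟨skip⟩
  obtain ⟨f, hf⟩ := exists_surjective_nat (Prog × ℕ × Bool)
  refine ⟨fun N => if (f N.unpair.1).2.1 ≤ N then f N.unpair.1 else (skip, 0, false), fun y => ?_,
    fun N => ?_⟩
  · obtain ⟨a, ha⟩ := hf y
    refine ⟨Nat.pair a (f a).2.1, ?_⟩
    have h1 : (f (Nat.pair a (f a).2.1).unpair.1).2.1 ≤ Nat.pair a (f a).2.1 := by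
      rw [Nat.unpair_pair]
      exact Nat.right_le_pair _ _
    simp only [if_pos h1]
    rw [Nat.unpair_pair]
    exact ha
  · by_cases h1 : (f N.unpair.1).2.1 ≤ N
    · simp only [if_pos h1]
      exact h1
    · simp only [if_neg h1]
      exact Nat.zero_le _

/-- Enumerations without programs of the first kind. -/
theorem exists_enum' : ∃ e : ℕ → Prog × ℕ × Bool, (∀ p c, ∃ N, e N = (p, c, false)) ∧
    (∀ N, (e N).2.1 ≤ N) ∧ ∀ N, (e N).2.2 = false := by
  obtain ⟨e, h1, h2⟩ := exists_enum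
  refine ⟨fun N => ((e N).1, (e N).2.1, false), fun p c => ?_, h2, fun _ => rfl⟩
  obtain ⟨N, hN⟩ := h1 (p, c, false)
  exact ⟨N, by simp [hN]⟩

/-- The number of bits for the visible inputs. -/
noncomputable def vb (h : ℕ → ℕ) (c n : ℕ) : ℕ :=
  (c + 3) * (2 ^ (c + 3) + Nat.clog 2 (vis h (2 ^ (c + 3)) n).card)

theorem vb_bound (h : ℕ → ℕ) (c n : ℕ) :
    (2 ^ (c + 3) * (vis h (2 ^ (c + 3)) n).card + 1) ^ (c + 3) ≤ 2 ^ vb h c n := by
  unfold vb
  set K := 2 ^ (c + 3) with hK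
  set x := (vis h K n).card with hx
  have h1 : x ≤ 2 ^ Nat.clog 2 x := Nat.le_pow_clog (by norm_num) x
  have h2 : K + 1 ≤ 2 ^ K := Nat.lt_two_pow_self
  have h3 : 1 ≤ 2 ^ Nat.clog 2 x := Nat.one_le_two_pow
  have h4 : K * x + 1 ≤ 2 ^ (K + Nat.clog 2 x) := by
    rw [pow_add]
    calc K * x + 1 ≤ K * 2 ^ Nat.clog 2 x + 2 ^ Nat.clog 2 x :=
          Nat.add_le_add (Nat.mul_le_mul_left _ h1) h3
      _ = (K + 1) * 2 ^ Nat.clog 2 x := by ring
      _ ≤ 2 ^ K * 2 ^ Nat.clog 2 x := Nat.mul_le_mul_right _ h2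
  calc (K * x + 1) ^ (c + 3) ≤ (2 ^ (K + Nat.clog 2 x)) ^ (c + 3) := Nat.pow_le_pow_left h4 _
    _ = 2 ^ ((c + 3) * (K + Nat.clog 2 x)) := by rw [← pow_mul, mul_comm]

/-- A language without a complement in the class. -/
theorem not_closed {O : List Bool → Bool} {Q : ℕ → ℕ → Prop} {α : ℕ → ℕ → ℕ}
    (hα : ∀ c n, Q c n → 1 ≤ α c n)
    (h : ∀ B ∈ NEXPLang O, ∃ c, ∃ᶠ n in atTop, Q c n ∧ ∀ a : List Bool, a.length < α c n →
        ∃ x : List Bool, x.length = n ∧ ¬ (x ∉ WitLang O ↔ pair x a ∈ B)) :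
    WitLang O ∈ NEXPLang O ∧ (WitLang O)ᶜ ∉ NEXPLang O := by
  refine ⟨Pool.Agent.LibSpec30.witLang_mem', fun hc => ?_⟩
  obtain ⟨B, hB, hBR⟩ := rel_of_nexp (O := O) (C := fun x _ => x ∈ (WitLang O)ᶜ)
    (nexp_mem (k := 2) hc 0)
  obtain ⟨c, hcf⟩ := h B hB
  obtain ⟨n, hn, h1⟩ := hcf.exists
  obtain ⟨x, -, h2⟩ := h1 [] (by
    have := hα c n hn
    rw [List.length_nil]
    omega)
  exact h2 (by rw [hBR]; exact Iff.rfl)

theorem vb_mul (h : ℕ → ℕ) (a c n : ℕ) :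
    2 ^ a * (2 ^ (c + 3) * (vis h (2 ^ (c + 3)) n).card + 1) ^ (c + 3) ≤ 2 ^ (a + vb h c n) := by
  rw [pow_add 2 a (vb h c n)]
  exact Nat.mul_le_mul_left _ (vb_bound h c n)

/-- The number of bits for inputs of bounded length. -/
theorem vb_le {h : ℕ → ℕ} {c n b : ℕ}
    (hb : ∀ x ∈ vis h (2 ^ (c + 3)) n, x.length < b) :
    vb h c n ≤ (c + 3) * (2 ^ (c + 3) + b) := by
  unfold vb
  refine Nat.mul_le_mul_left _ (Nat.add_le_add_left ?_ _)
  refine Nat.clog_le_of_le_pow ?_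
  refine le_trans (Finset.card_le_card fun x hx => mem_short.2 (hb x hx)) (card_short b).le

/-- Few inputs are visible. -/
theorem key_sharp {h : ℕ → ℕ} (hs : StrictMono h) {s : ℕ → ℕ} {c m n : ℕ}
    (h1 : m ^ (2 * (2 ^ (c + 3) * (2 ^ (c + 3) + 1))) ≤
      h (s m / (2 * (2 ^ (c + 3) * (2 ^ (c + 3) + 1)))))
    (h2 : 2 * ((c + 3) * 2 ^ (c + 3) + 2) ≤ s m) (h3 : 2 ≤ m)
    (hm : n ≤ m + m ^ 2 ^ (c + 3) + 2 ^ (c + 3)) : vb h c n + 2 ≤ s m := by
  have hh : ∀ n, n ≤ h n := fun n => hs.id_le n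
  have hL : c + 3 < 2 ^ (c + 3) := Nat.lt_two_pow_self
  set K := 2 ^ (c + 3) with hK
  set C := 2 * (K * (K + 1)) with hC
  have hC2 : 2 * (c + 3) ≤ C := by
    have : K * 1 ≤ K * (K + 1) := Nat.mul_le_mul_left _ (by omega)
    omega
  have hnK : n ^ K ≤ m ^ C := by
    have h4 : n ≤ m ^ (2 * (K + 1)) := by
      have h5 : m + 2 ≤ m ^ 2 := by nlinarith
      have h6 : m + m ^ K + K ≤ (m + 2) ^ (K + 1) := by
        have g1 : m ≤ (m + 2) ^ K := le_trans (by omega) (Nat.le_self_pow (by omega) (m + 2))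
        have g2 : m ^ K ≤ (m + 2) ^ K := Nat.pow_le_pow_left (by omega) K
        have g3 : K ≤ (m + 2) ^ K := le_trans Nat.lt_two_pow_self.le
          (Nat.pow_le_pow_left (by omega) K)
        have g4 : (m + 2) ^ (K + 1) = (m + 2) ^ K * (m + 2) := pow_succ _ _
        have g5 : (m + 2) ^ K * 4 ≤ (m + 2) ^ K * (m + 2) := Nat.mul_le_mul_left _ (by omega)
        omega
      calc n ≤ (m + 2) ^ (K + 1) := le_trans hm h6
        _ ≤ (m ^ 2) ^ (K + 1) := Nat.pow_le_pow_left h5 _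
        _ = m ^ (2 * (K + 1)) := by rw [← pow_mul]
    calc n ^ K ≤ (m ^ (2 * (K + 1))) ^ K := Nat.pow_le_pow_left h4 K
      _ = m ^ C := by rw [← pow_mul, hC]; congr 1; ring
  have h4 := vb_le (h := h) (c := c) (n := n) (b := s m / C) (fun x hx => by
    rw [mem_vis hh] at hx
    exact hs.lt_iff_lt.1 (lt_of_lt_of_le hx.1 (le_trans hnK h1)))
  have h5 : C * (s m / C) ≤ s m := Nat.mul_div_le _ _
  have h6 : 2 * (c + 3) * (s m / C) ≤ C * (s m / C) := Nat.mul_le_mul_right _ hC2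
  rw [← hK, Nat.mul_add] at h4
  have h7 : 2 * (c + 3) * (s m / C) = 2 * ((c + 3) * (s m / C)) := by ring
  omega

/-- The sharpness of the trade-off. -/
theorem sharp {h : ℕ → ℕ} (hs : StrictMono h) {s : ℕ → ℕ} (hsm : Monotone s) (hsn : ∀ n, s n ≤ n)
    (hsC : ∀ C, 1 ≤ C → ∃ᶠ n in atTop, n ^ C ≤ h (s n / C)) :
    ∃ O : List Bool → Bool, Closed O h ∧ Enough O s ∧
      WitLang O ∈ NEXPLang O ∧ (WitLang O)ᶜ ∉ NEXPLang O := by
  have hh : ∀ n, n ≤ h n := fun n => hs.id_le n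
  obtain ⟨e, he, he2⟩ := exists_enum
  have key : ∀ c, ∃ᶠ n in atTop, vb h c n + 1 + 1 ≤ n ∧
      ∀ m, n ≤ m + m ^ 2 ^ (c + 3) + 2 ^ (c + 3) → 1 + vb h c n ≤ s m := by
    intro c
    rw [frequently_atTop]
    intro b
    set K := 2 ^ (c + 3) with hK
    set C := 2 * (K * (K + 1)) with hC
    have hKpos : 1 ≤ K := Nat.one_le_two_pow
    have hC1 : 1 ≤ C := by
      have : 1 * 1 ≤ K * (K + 1) := Nat.mul_le_mul hKpos (by omega)
      omega
    obtain ⟨m, hmC, hmge⟩ := ((hsC C hC1).and_eventually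
      (eventually_ge_atTop (b + 2 + h (2 * ((c + 3) * K + 2))))).exists
    have hsm2 : 2 * ((c + 3) * K + 2) ≤ s m := by
      have h1 : h (2 * ((c + 3) * K + 2)) ≤ h (s m / C) := by
        have h2 : m ≤ m ^ C := Nat.le_self_pow (by omega) m
        omega
      exact le_trans (hs.le_iff_le.1 h1) (Nat.div_le_self _ _)
    have hv : vb h c (m + m ^ K + K) + 2 ≤ s m :=
      key_sharp hs hmC hsm2 (by omega) le_rfl
    refine ⟨m + m ^ K + K, by omega, ?_, fun m' hm' => ?_⟩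
    · have := hsn m
      omega
    · have h1 : m ≤ m' := by
        by_contra hlt
        push Not at hlt
        have := Nat.pow_le_pow_left hlt.le K
        omega
      have := hsm h1
      omega
  obtain ⟨O, h1, h2, h3⟩ := engine hh he2 (fun p c => he (p, c, false))
    (α := fun _ _ => 1) (v := fun c n => 1 + vb h c n)
    (P := fun c n => vb h c n + 1 + 1 ≤ n ∧
      ∀ m, n ≤ m + m ^ 2 ^ (c + 3) + 2 ^ (c + 3) → 1 + vb h c n ≤ s m)
    key (fun c n hn => by omega)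
    (fun c n hn => ⟨by omega, vb_mul h 1 c n⟩)
  refine ⟨O, h1, ?_, not_closed (fun _ _ _ => le_rfl) h3⟩
  rintro L ⟨c, p, hp⟩
  obtain ⟨N, hN⟩ := he (p, c, true)
  obtain ⟨B, hB, f, hf, hlen⟩ := h2 N p c hN L hp
  refine ⟨0, B, hB, f, fun m => ?_, ?_⟩
  · rcases hlen m with h4 | ⟨c', n, r, h4, h5, h6, h7, h8⟩
    · have : (bt 0).length ≤ 0 := length_bt (s := 0) (by norm_num)
      rw [h4]
      omega
    · rw [h7]
      refine le_trans (length_bt h8) ?_
      refine le_trans (h5.2 m (le_trans h6 ?_)) (by omega)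
      have h9 : m ^ (N + 1) ≤ m ^ 2 ^ (c' + 3) := by
        rcases Nat.eq_zero_or_pos m with rfl | hm
        · rw [Nat.zero_pow (by omega)]; exact Nat.zero_le _
        · exact Nat.pow_le_pow_right hm (by omega)
      omega
  · ext x
    show x ∉ L ↔ pair x (f x.length) ∈ B
    exact hf x

/-- Two advice values are not enough if `h` has large gaps. -/
theorem gap {h : ℕ → ℕ} (hs : StrictMono h) (hK : ∀ K, ∃ n, h n ^ K + K < h (n + 1)) :
    ∃ O : List Bool → Bool, Closed O h ∧ (∀ L ∈ BH O 2, Lᶜ ∈ BH O 2) ∧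
      WitLang O ∈ NEXPLang O ∧ (WitLang O)ᶜ ∉ NEXPLang O := by
  have hh : ∀ n, n ≤ h n := fun n => hs.id_le n
  obtain ⟨e, he, he2⟩ := exists_enum
  have key : ∀ c, ∃ᶠ n in atTop, 2 ≤ n ∧ vis h (2 ^ (c + 3)) n = ∅ := by
    intro c
    set K := 2 ^ (c + 3) with hKdef
    rw [frequently_atTop]
    intro b
    obtain ⟨K', hK'⟩ : PolyB fun a => ((a + 2) ^ (K + 2) + (2 + b)) ^ K :=
      ((((PolyB.id.add (PolyB.const 2)).pow (K + 2)).add (PolyB.const (2 + b)))).pow K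
    obtain ⟨n₀, hn₀⟩ := hK K'
    have h4 := hK' (h n₀)
    beta_reduce at h4
    refine ⟨(h n₀ + 2) ^ (K + 2) + (2 + b), by omega, by omega, ?_⟩
    rw [Finset.eq_empty_iff_forall_notMem]
    intro x hx
    rw [mem_vis hh] at hx
    have h5 : x.length < n₀ + 1 := hs.lt_iff_lt.1 (by omega)
    have h6 : h x.length ≤ h n₀ := hs.monotone (by omega)
    have h7 : (h x.length + 2) ^ (K + 2) ≤ (h n₀ + 2) ^ (K + 2) :=
      Nat.pow_le_pow_left (by omega) _
    omega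
  obtain ⟨O, h1, h2, h3⟩ := engine hh he2 (fun p c => he (p, c, false))
    (α := fun _ _ => 1) (v := fun c n => 1)
    (P := fun c n => 2 ≤ n ∧ vis h (2 ^ (c + 3)) n = ∅)
    key (fun c n hn => by omega) (fun c n hn => ⟨by omega, by simp [hn.2]⟩)
  refine ⟨O, h1, ?_, not_closed (fun _ _ _ => le_rfl) h3⟩
  refine ((levels O (m := 2) (by norm_num)).out 0 3).2 ?_
  rintro L ⟨c, p, hp⟩
  obtain ⟨N, hN⟩ := he (p, c, true)
  obtain ⟨B, hB, f, hf, hlen⟩ := h2 N p c hN L hp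
  refine ⟨{bt 0, bt 1}, Finset.card_le_two, B, hB, f, fun m => ?_, ?_⟩
  · rw [Finset.mem_insert, Finset.mem_singleton]
    rcases hlen m with h4 | ⟨c', n, r, h4, h5, h6, h7, h8⟩
    · exact Or.inl h4
    · have : r = 0 ∨ r = 1 := by
        have : r < 2 := by simpa using h8
        omega
      rcases this with rfl | rfl
      · exact Or.inl h7
      · exact Or.inr h7
  · ext x
    show x ∉ L ↔ pair x (f x.length) ∈ B
    exact hf x

/-- Closure of doubly exponential time saves only `O(log n)` bits. -/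
theorem top_sharp : ∃ O : List Bool → Bool, Closed O (fun n => 2 ^ n) ∧
    ∀ a : ℕ → ℕ, (∀ C, ∀ᶠ n in atTop, a n + C * Nat.log 2 (n + 1) ≤ n) → ¬ Enough O a := by
  have hh : ∀ n, n ≤ 2 ^ n := fun n => Nat.lt_two_pow_self.le
  obtain ⟨e, he, he2, he3⟩ := exists_enum'
  have hvb : ∀ c n, vb (fun n => 2 ^ n) c n ≤
      (c + 3) * 2 ^ (c + 3) * (Nat.log 2 (n + 1) + 2) := by
    intro c n
    set K := 2 ^ (c + 3) with hK
    have h4 := vb_le (h := fun n => 2 ^ n) (c := c) (n := n) (b := K * (Nat.log 2 (n + 1) + 1))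
      (fun x hx => by
        rw [mem_vis hh] at hx
        have h5 : n ^ 2 ^ (c + 3) ≤ 2 ^ (K * (Nat.log 2 (n + 1) + 1)) := by
          rw [← hK, mul_comm, pow_mul]
          refine Nat.pow_le_pow_left ?_ K
          exact (lt_trans (Nat.lt_succ_self n)
            (Nat.lt_pow_succ_log_self (by norm_num) (n + 1))).le
        exact (Nat.pow_lt_pow_iff_right (by norm_num : 1 < 2)).1 (lt_of_lt_of_le hx.1 h5))
    refine le_trans h4 (le_of_eq ?_)
    rw [← hK]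
    ring
  have key : ∀ c, ∀ᶠ n in atTop, vb (fun n => 2 ^ n) c n + 1 + 1 ≤ n := by
    intro c
    set A := (c + 3) * 2 ^ (c + 3) with hA
    obtain ⟨l₀, hl₀⟩ := eventually_atTop.1 (poly_lt_two_pow 2 (2 * A + 4))
    filter_upwards [eventually_ge_atTop (2 ^ l₀)] with n hn
    have h4 := hvb c n
    rw [← hA] at h4
    set l := Nat.log 2 (n + 1) with hl
    have h5 : l₀ ≤ l := Nat.le_log_of_pow_le (by norm_num) (by omega)
    have h6 := hl₀ l h5
    have h7 : 2 ^ l ≤ n + 1 := Nat.pow_log_le_self 2 (by omega)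
    have h8 : A * (l + 2) + 4 ≤ (l + (2 * A + 4)) ^ 2 := by nlinarith
    omega
  obtain ⟨O, h1, h2, h3⟩ := engine hh he2 he
    (α := fun c n => n - 1 - vb (fun n => 2 ^ n) c n) (v := fun c n => n - 1)
    (P := fun c n => vb (fun n => 2 ^ n) c n + 1 + 1 ≤ n)
    (fun c => (key c).frequently) (fun c n hn => by omega) (fun c n hn => ⟨by omega, by
      have h4 := vb_mul (fun n => 2 ^ n) (n - 1 - vb (fun n => 2 ^ n) c n) c n
      have h5 : (n - 1 - vb (fun n => 2 ^ n) c n) + vb (fun n => 2 ^ n) c n = n - 1 := by omega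
      rw [h5] at h4
      exact h4⟩)
  refine ⟨O, h1, fun a ha hE => ?_⟩
  obtain ⟨c0, B, hB, f, hf, hfB⟩ := hE _ Pool.Agent.LibSpec30.witLang_mem'
  obtain ⟨c, hc⟩ := h3 B hB
  obtain ⟨n, ⟨h4, h5⟩, h6, h7⟩ := (hc.and_eventually
    ((ha ((c + 3) * 2 ^ (c + 3) * 3 + c0 + 2)).and (eventually_ge_atTop 1))).exists
  have hlen : (f n).length ≤ a n + c0 := hf n
  obtain ⟨x, hx, h8⟩ := h5 (f n) (by
    have h9 := hvb c n
    have h10 : 1 ≤ Nat.log 2 (n + 1) := Nat.log_pos (by norm_num) (by omega)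
    set A := (c + 3) * 2 ^ (c + 3) with hA
    set l := Nat.log 2 (n + 1) with hl
    have h11 : A * (l + 2) ≤ A * (3 * l) := Nat.mul_le_mul_left _ (by omega)
    have h12 : (A * 3 + c0 + 2) * l = A * (3 * l) + (c0 + 2) * l := by ring
    have h13 : (c0 + 2) * 1 ≤ (c0 + 2) * l := Nat.mul_le_mul_left _ h10
    show (f n).length < n - 1 - vb (fun n => 2 ^ n) c n
    omega)
  refine h8 ?_
  have h9 := Set.ext_iff.1 hfB x
  rw [Set.mem_compl_iff] at h9
  rw [← hx]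
  exact h9

end Pool.Agent.LibTrade92
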