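import Pool.Agent.LibTrade92.World
import Pool.Agent.LibSpec4.Chain

/-!
One step of the chain: one more witness.
-/

namespace Pool.Agent.LibTrade92

open Function Pool.Agent.LibNexp
open Pool.Agent.LibSpec4 (dg length_dg dg_injective bt bt_injective length_bt ask cd ask_injective
  cd_injective length_ask length_cd length_lt_cd xs length_xs xs_injective census lev
  witLang_agree census_agree le_lev lev_mono exists_fix exists_notMem xs_append census_eq acc_use')

variable {en : ℕ → Prog × (ℕ → ℕ)} {V ν : ℕ → ℕ} {tgd : ℕ → ℕ → Prop} {R : ℕ → ℕ} {L k : ℕ}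
  {I : Finset (ℕ × List Bool)}

/-- The first world of a stage. -/
theorem world_zero (hd : Data en V ν tgd k R L I) {O₀ : List Bool → Bool}
    (hgood : Good en V ν tgd O₀) : ∃ O, World en V ν tgd k O₀ O 0 := by
  classical
  have hν := hd.pos
  have hlen : ∀ {i : ℕ}, (xs (ν k) i).length = ν k := fun {i} => length_xs (hν k)
  set P : List Bool → Bool := fun s => if s.length < lev ν k then O₀ s else false with hP
  obtain ⟨O, hc⟩ := comp (en := en) (V := V) (tgd := tgd) hν P ∅ (lev ν k)
  have h1 := hc.same
  have h2 := hc.code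
  have hP1 : ∀ s, s.length < lev ν k → P s = O₀ s := fun s hs => by simp only [hP, if_pos hs]
  have hP0 : ∀ s, lev ν k ≤ s.length → P s = false := fun s hs => by
    simp only [hP, if_neg (not_lt.2 hs)]
  have hwit : ∀ i, i < V k - 1 → (xs (ν k) i ∈ WitLang O ↔ i < 0) := by
    intro i hi
    constructor
    · rintro ⟨w, hw, h⟩
      exfalso
      obtain ⟨l, hl⟩ := xs_append (ν k) i w
      rw [h1 _ (Or.inr (Or.inr (by rw [hl]; exact not_isCode_true l))),
        hP0 _ (by rw [List.length_append, hw, hlen]; exact le_rfl)] at h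
      exact absurd h (by simp)
    · intro h; omega
  refine ⟨O, fun s hs => by rw [h1 s (Or.inl hs), hP1 s hs], ?_, hwit, ?_⟩
  · refine good_comp hν hgood hc hP1 (by simp) (fun s hs => ?_) (by simp) (by simp)
    by_cases h3 : (false :: s).length < lev ν k
    · rw [hP1 _ h3] at hs; exact hgood.codes s hs
    · rw [hP0 _ (not_lt.1 h3)] at hs; exact absurd hs (by simp)
  · intro N x r w hNt hw h3 h4 h5
    by_contra hne
    rw [Bool.not_eq_false] at hne
    have h6 := (val_cd ((h2 _ (by
      have := length_lt_cd N x r w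
      have := qlen_le_wl en N x.length
      omega) (by simp)
      ⟨N, x, r, w, rfl, hw⟩).1 hne)).1
    rw [tag_eq hd.levlt h3 h4 hNt, census_eq (Nat.zero_le _) hwit] at h6
    omega

/-- The completion after adding a witness is a world if the frozen codes are correct. -/
theorem world_succ (hd : Data en V ν tgd k R L I) {O₀ O : List Bool → Bool} {j : ℕ}
    (hw : World en V ν tgd k O₀ O j) (hj : j < V k - 1) {F F₁ : Finset (List Bool)}
    (hF : F.card < 2 ^ (2 ^ ν k)) (hFR : ∀ s ∈ F, s.length < R L) (hF1 : F₁ ⊆ F)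
    {w : List Bool} (hwn : w.length = 2 ^ ν k) (hwF : xs (ν k) j ++ w ∉ F)
    {O' : List Bool → Bool}
    (hc : Compl en V ν tgd (update O (xs (ν k) j ++ w) true) F₁ (lev ν k) O')
    (hbad : ∀ N y v, cd N y 0 v ∈ F₁ → v.length = wl en N y.length →
      lev ν k ≤ qlen en N y.length → ¬ tgd k N → O (cd N y 0 v) = true → ¬ AccN en O' N y) :
    World en V ν tgd k O₀ O' (j + 1) ∧ ∀ s ∈ F₁, O' s = O s := by
  classical
  have hν := hd.pos
  have hlen : ∀ {i : ℕ}, (xs (ν k) i).length = ν k := fun {i} => length_xs (hν k)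
  have hcand : ∀ {i : ℕ}, i < V k - 1 → i < 2 ^ (ν k - 1) := fun {i} hi => by
    have := hd.cand k
    omega
  set x := xs (ν k) j with hx
  have hxn : x.length = ν k := hlen
  obtain ⟨l, hl⟩ := xs_append (ν k) j w
  rw [← hx] at hl
  have hlev : (x ++ w).length = lev ν k := by rw [List.length_append, hxn, hwn]; rfl
  set P : List Bool → Bool := update O (x ++ w) true with hP
  have hPne : ∀ s, s ≠ x ++ w → P s = O s := fun s hs => update_of_ne hs _ _
  have g1 := hc.same
  have g2 := hc.code
  have hP1 : ∀ s, s.length < lev ν k → P s = O s := fun s hs => hPne s (by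
    rintro rfl; omega)
  have hP2 : ∀ s ∈ F₁, P s = O s := fun s hs => hPne s (by rintro rfl; exact hwF (hF1 hs))
  have hO2F : ∀ s ∈ F₁, O' s = O s := fun s hs => by rw [g1 s (Or.inr (Or.inl hs)), hP2 s hs]
  have hwit : ∀ i, i < V k - 1 → (xs (ν k) i ∈ WitLang O' ↔ i < j + 1) := by
    intro i hi
    have key : ∀ v : List Bool, O' (xs (ν k) i ++ v) = P (xs (ν k) i ++ v) := by
      intro v
      obtain ⟨l', hl'⟩ := xs_append (ν k) i v
      exact g1 _ (Or.inr (Or.inr (by rw [hl']; exact not_isCode_true l')))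
    constructor
    · rintro ⟨v, hv, h⟩
      rw [key] at h
      by_cases he : xs (ν k) i ++ v = x ++ w
      · have : xs (ν k) i = xs (ν k) j := (List.append_inj he (by rw [hlen, hxn])).1
        have := xs_injective (hcand hi) (hcand (by omega)) this
        omega
      · rw [hPne _ he] at h
        have := (hw.wit i hi).1 ⟨v, hv, h⟩
        omega
    · intro h
      rcases Nat.lt_or_ge i j with h10 | h10
      · obtain ⟨v, hv, h11⟩ := (hw.wit i hi).2 h10
        refine ⟨v, hv, ?_⟩
        rw [key]
        by_cases he : xs (ν k) i ++ v = x ++ w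
        · rw [he, hP, update_self]
        · rw [hPne _ he, h11]
      · have : i = j := by omega
        subst this
        exact ⟨w, by rw [hwn, hlen], by rw [key, hP, ← hx, update_self]⟩
  have hcensus := census_eq (V := V k) (j := j + 1) (by omega) hwit
  have hF1card : F₁.card < 2 ^ (2 ^ ν k) := lt_of_le_of_lt (Finset.card_le_card hF1) hF
  have hgood2 : Good en V ν tgd O' := by
    refine good_comp hν hw.good hc hP1 hP2 (fun s hs => ?_) ?_ ?_
    · rw [hPne _ (by rw [hl]; simp)] at hs
      exact hw.good.codes s hs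
    · intro N y r v hmem hv hq hr hPt
      have h10 : qlen en N y.length < lev ν (k + 1) := by
        have := hFR _ (hF1 hmem)
        have := length_lt_cd N y r v
        have := qlen_le_wl en N y.length
        have := hd.last
        omega
      rw [hP2 _ hmem] at hPt
      by_cases hN : tgd k N
      · rw [tag_eq hd.levlt hq h10 hN, hcensus] at hr
        rw [hw.fresh N y r v hN hv hq h10 (by omega)] at hPt
        exact absurd hPt (by simp)
      · rw [tag_zero hd.levlt hq h10 hN] at hr
        subst hr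
        exact hbad N y v hmem hv hq hN hPt
    · have : 2 ^ (2 ^ ν k) ≤ 2 ^ lev ν k := Nat.pow_le_pow_right (by norm_num)
        (Nat.le_add_left _ _)
      omega
  refine ⟨⟨fun s hs => ?_, hgood2, hwit, ?_⟩, hO2F⟩
  · rw [g1 s (Or.inl hs), hP1 s hs, hw.low s hs]
  · intro N y r v hN hv h10 h11 h12
    by_cases hmem : cd N y r v ∈ F₁
    · rw [hO2F _ hmem]
      exact hw.fresh N y r v hN hv h10 h11 (by omega)
    · by_contra hne
      rw [Bool.not_eq_false] at hne
      have h13 := (val_cd ((g2 _ (by
        have := length_lt_cd N y r v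
        have := qlen_le_wl en N y.length
        omega) hmem
        ⟨N, y, r, v, rfl, hv⟩).1 hne)).1
      rw [tag_eq hd.levlt h10 h11 hN, hcensus] at h13
      omega

/-- One more witness: either the frozen strings survive, or an item becomes accepted. -/
theorem step (hd : Data en V ν tgd k R L I) {O₀ O : List Bool → Bool} {j : ℕ}
    (hw : World en V ν tgd k O₀ O j) (hj : j < V k - 1) {F : Finset (List Bool)}
    (hF : F.card < 2 ^ (2 ^ ν k)) (hFR : ∀ s ∈ F, s.length < R L) :
    (∃ O', World en V ν tgd k O₀ O' (j + 1) ∧ ∀ s ∈ F, O' s = O s) ∨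
    (∃ O' l, World en V ν tgd k O₀ O' (j + 1) ∧ l < L ∧
      (∀ s ∈ F, s.length < R (l + 1) → O' s = O s) ∧
      ∃ q ∈ I, R l ≤ qlen en q.1 q.2.length ∧ qlen en q.1 q.2.length < R (l + 1) ∧
        ¬ AccN en O q.1 q.2 ∧ AccN en O' q.1 q.2) := by
  classical
  have hν := hd.pos
  obtain ⟨w, hw', hwF⟩ : ∃ w ∈ strs (2 ^ ν k), xs (ν k) j ++ w ∉ F := by
    by_contra hcon2
    push Not at hcon2
    have hc := Finset.card_le_card_of_injOn (fun w => xs (ν k) j ++ w) hcon2
      (fun w _ w' _ h => List.append_cancel_left h)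
    rw [card_strs] at hc
    omega
  have hwn := mem_strs.1 hw'
  obtain ⟨O₂, hc2⟩ := comp (en := en) (V := V) (tgd := tgd) hν (update O (xs (ν k) j ++ w) true)
    F (lev ν k)
  -- bad items
  set Bad : ℕ → Prop := fun l => ∃ N y v, cd N y 0 v ∈ F ∧ v.length = wl en N y.length ∧
    lev ν k ≤ qlen en N y.length ∧ ¬ tgd k N ∧ O (cd N y 0 v) = true ∧ AccN en O₂ N y ∧
    R l ≤ qlen en N y.length ∧ qlen en N y.length < R (l + 1) with hBad
  have hlevel : ∀ N y v, cd N y 0 v ∈ F → v.length = wl en N y.length →
      lev ν k ≤ qlen en N y.length → ∃ l, l < L ∧ R l ≤ qlen en N y.length ∧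
        qlen en N y.length < R (l + 1) := by
    intro N y v h1 h2 h3
    refine exists_level (le_trans hd.first h3) ?_
    have := hFR _ h1
    have := length_lt_cd N y 0 v
    have := qlen_le_wl en N y.length
    omega
  by_cases hb : ∃ l, l < L ∧ Bad l
  · right
    obtain ⟨hl, hbl⟩ := Nat.find_spec hb
    have hmin := fun m hm => Nat.find_min hb (m := m) hm
    set l := Nat.find hb with hldef
    obtain ⟨N, y, v, h1, h2, h3, h4, h5, h6, h7, h8⟩ := hbl
    set F₁ := F.filter fun s => s.length < R (l + 1) with hF1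
    obtain ⟨O₃, hc3⟩ := comp (en := en) (V := V) (tgd := tgd) hν
      (update O (xs (ν k) j ++ w) true) F₁ (lev ν k)
    have hag : ∀ s : List Bool, s.length < R (l + 1) → O₃ s = O₂ s := by
      refine compl_unique hν hc3 hc2 fun s hs => ?_
      rw [hF1, Finset.mem_filter]
      exact ⟨fun h => h.1, fun h => ⟨h, hs⟩⟩
    obtain ⟨hW, hsame⟩ := world_succ hd hw hj hF hFR (Finset.filter_subset _ _) hwn hwF hc3 (by
      intro N' y' v' g1 g2 g3 g4 g5 g6
      rw [Finset.mem_filter] at g1
      obtain ⟨l', hl', g7, g8⟩ := hlevel N' y' v' g1.1 g2 g3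
      have hlt : l' < l := by
        by_contra hge
        push Not at hge
        have g9 : R l ≤ qlen en N' y'.length := le_trans (hd.mono hge) g7
        have g10 := hd.gap N' y'.length l hl g9
        have := length_lt_cd N' y' 0 v'
        omega
      have g11 : qlen en N' y'.length < R (l + 1) := lt_of_lt_of_le g8 (hd.mono (by omega))
      have g12 : AccN en O₂ N' y' := by
        rw [← accN_agree (O := O₃) fun s hs => hag s (by omega)]
        exact g6
      exact hmin l' hlt ⟨hl', N', y', v', g1.1, g2, g3, g4, g5, g12, g7, g8⟩)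
    refine ⟨O₃, l, hW, hl, fun s hs hsl => hsame s ?_, (N, y), ?_, h7, h8, ?_, ?_⟩
    · rw [Finset.mem_filter]
      exact ⟨hs, hsl⟩
    · refine hd.items N y h4 h3 ?_
      have := hFR _ h1
      have := length_lt_cd N y 0 v
      omega
    · have g1 : qlen en N y.length < lev ν (k + 1) := by
        have := hFR _ h1
        have := length_lt_cd N y 0 v
        have := qlen_le_wl en N y.length
        have := hd.last
        omega
      exact hw.good.sound N y 0 v h2 h5 (tag_zero hd.levlt h3 g1 h4).symm
    · show AccN en O₃ N y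
      rw [accN_agree (O := O₃) (O' := O₂) fun s hs => hag s (by omega)]
      exact h6
  · left
    push Not at hb
    obtain ⟨hW, hsame⟩ := world_succ hd hw hj hF hFR subset_rfl hwn hwF hc2 (by
      intro N y v g1 g2 g3 g4 g5 g6
      obtain ⟨l, hl, g7, g8⟩ := hlevel N y v g1 g2 g3
      exact hb l hl ⟨N, y, v, g1, g2, g3, g4, g5, g6, g7, g8⟩)
    exact ⟨O₂, hW, hsame⟩

end Pool.Agent.LibTrade92
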