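import Pool.Agent.LibTrade92.Limit
import Pool.Agent.LibSpec4.Spectrum
import Pool.Agent.LibDown92.Dec

/-!
The use of the codes: closure under complement and advice.
-/

namespace Pool.Agent.LibTrade92

open Function Filter
open Pool.Agent.LibNexp hiding cd cd_injective length_lt_cd xs length_xs xs_injective census lev
  witLang_agree census_agree le_lev lev_mono exists_fix exists_notMem CodeLang census_lt ask
  length_cd pushW pushW_sound pushW_complete
open Pool.Agent.LibSpec4 (bt length_bt ask cd ask_injective cd_injective length_ask length_cd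
  length_lt_cd census lev dbl run_dbl pushW pushW_sound pushW_complete CodeLang census_lt)
open Pool.Agent.LibDown92 (NH Closed Graph)

variable {en : ℕ → Prog × (ℕ → ℕ)} {V ν : ℕ → ℕ} {tgd : ℕ → ℕ → Prop} {O : List Bool → Bool}

/-- The codes without tag are found in time about their length. -/
theorem code0_time (hcodes : ∀ s, O (false :: s) = true → IsCode en (false :: s)) (N : ℕ) :
    NTime O (fun n => wl en N n + (9 * n + (N + 20))) fun e : Fin 1 → List Bool =>
      ∃ w, O (cd N (e 0) 0 w) = true := by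
  set pre : List Bool := false :: (List.replicate N true ++ [false]) with hpre
  have hprel : pre.length = N + 2 := by simp [hpre]
  have hbt : bt 0 = [] := by
    have h1 : (bt 0).length ≤ 0 := length_bt (s := 0) (by norm_num)
    exact List.length_eq_zero_iff.1 (by omega)
  have hask : ∀ x w, cd N x 0 w = pre ++ (((x.flatMap fun b => [b, b]).flatMap fun b => [b, b]) ++
      ([true, true, false, false, true, false] ++ w)) := by
    intro x w
    simp [cd, ask, hpre, pair, hbt, List.flatMap_append]
  have hrev : ∀ x : List Bool, ((x.reverse.flatMap fun b => [b, b])).reverse =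
      x.flatMap fun b => [b, b] := by
    intro x
    induction x with
    | nil => rfl
    | cons b x ih => simp [List.flatMap_append, ih]
  refine ⟨.seq (guess 1) (.seq (pushW 1 [true, true, false, false, true, false]) (.seq (dbl 0 2)
    (.seq (dbl 2 1) (.seq (pushW 1 pre) (.query 1 true))))), fun e => ⟨?_, ?_⟩⟩
  · rintro t σ' ⟨t3, t4, τ2, -, h3, t1, t2, τ1, -, h2, t5, t6, τ3, -, h4, t7, t8, τ4, -, h5,
      t9, t10, τ5, -, h6, -, h7, rfl⟩
    rw [run_guess] at h3
    obtain ⟨w, -, rfl⟩ := h3
    rw [pushW_sound h2] at h4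
    rw [run_dbl (by norm_num)] at h4
    obtain ⟨-, rfl⟩ := h4
    rw [run_dbl (by norm_num)] at h5
    obtain ⟨-, rfl⟩ := h5
    rw [pushW_sound h6] at h7
    refine ⟨w, ?_⟩
    rw [hask]
    have a2 : init e 2 = [] := init_ge e (r := 2) (by norm_num)
    have a1 : init e 1 = [] := init_ge e (r := 1) le_rfl
    have a0 : init e 0 = e 0 := init0 e
    simpa [a2, a1, a0, hrev] using h7
  · rintro ⟨w, hw⟩
    have hsz : size e = (e 0).length := by simp [size]
    have hwl : w.length = wl en N (size e) := by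
      obtain ⟨N', x', r', w', h3, h4⟩ := hcodes _ hw
      have h3' : cd N (e 0) 0 w = cd N' x' r' w' := h3
      obtain ⟨rfl, rfl, -, rfl⟩ := cd_injective h3'
      rw [h4, hsz]
    have h3 : Run O (guess 1) w.length (init e) (update (init e) 1 (w ++ init e 1)) :=
      run_guess.2 ⟨w, rfl, rfl⟩
    set τ1 := update (init e) 1 (w ++ init e 1) with hτ1
    have a0 : τ1 0 = e 0 := by rw [hτ1, update_of_ne (by norm_num), init0]
    have a1 : τ1 1 = w := by
      rw [hτ1, update_self, init_ge e (r := 1) le_rfl, List.append_nil]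
    have a2 : τ1 2 = [] := by
      rw [hτ1, update_of_ne (by norm_num), init_ge e (r := 2) (by norm_num)]
    have h4 := pushW_complete (O := O) (r := 1) [true, true, false, false, true, false] τ1
    set τ2 := update τ1 1 ([true, true, false, false, true, false] ++ τ1 1) with hτ2
    have b0 : τ2 0 = e 0 := by rw [hτ2, update_of_ne (by norm_num), a0]
    have b1 : τ2 1 = [true, true, false, false, true, false] ++ w := by
      rw [hτ2, update_self, a1]
    have b2 : τ2 2 = [] := by rw [hτ2, update_of_ne (by norm_num), a2]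
    have h5 : Run O (dbl 0 2) (3 * (e 0).length + 1) τ2
        (update (update τ2 0 []) 2 ((e 0).reverse.flatMap fun b => [b, b])) :=
      (run_dbl (by norm_num)).2 ⟨by rw [b0], by rw [b0, b2, List.append_nil]⟩
    set τ3 := update (update τ2 0 []) 2 ((e 0).reverse.flatMap fun b => [b, b]) with hτ3
    have c1 : τ3 1 = [true, true, false, false, true, false] ++ w := by
      rw [hτ3, update_of_ne (by norm_num), update_of_ne (by norm_num), b1]
    have c2 : τ3 2 = (e 0).reverse.flatMap fun b => [b, b] := by rw [hτ3, update_self]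
    have hlen : ((e 0).reverse.flatMap fun b => [b, b]).length = 2 * (e 0).length := by
      have : ∀ l : List Bool, (l.flatMap fun b => [b, b]).length = 2 * l.length := by
        intro l
        induction l with
        | nil => rfl
        | cons b l ih =>
          rw [List.flatMap_cons, List.length_append, ih, List.length_cons]
          simp only [List.length_cons, List.length_nil]
          ring
      rw [this, List.length_reverse]
    have h6 : Run O (dbl 2 1) (3 * (2 * (e 0).length) + 1) τ3
        (update (update τ3 2 []) 1 ((((e 0).flatMap fun b => [b, b]).flatMap fun b => [b, b]) ++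
          ([true, true, false, false, true, false] ++ w))) :=
      (run_dbl (by norm_num)).2 ⟨by rw [c2, hlen], by rw [c2, c1, hrev]⟩
    set τ4 := update (update τ3 2 []) 1 ((((e 0).flatMap fun b => [b, b]).flatMap
      fun b => [b, b]) ++ ([true, true, false, false, true, false] ++ w)) with hτ4
    have d1 : τ4 1 = (((e 0).flatMap fun b => [b, b]).flatMap fun b => [b, b]) ++
        ([true, true, false, false, true, false] ++ w) := by rw [hτ4, update_self]
    have h7 := pushW_complete (O := O) (r := 1) pre τ4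
    refine ⟨w.length + (6 + ((3 * (e 0).length + 1) + ((3 * (2 * (e 0).length) + 1) +
      (pre.length + 1)))), _, ?_, _, _, _, rfl, h3, _, _, _, rfl, h4, _, _, _, rfl, h5,
      _, _, _, rfl, h6, _, _, _, rfl, h7, rfl, ?_, rfl⟩
    · show _ ≤ wl en N (size e) + (9 * size e + (N + 20))
      rw [hwl, hprel, hsz]
      omega
    · rw [update_self, d1, ← hask]
      exact hw

theorem nh_code0 {h : ℕ → ℕ} (hh : ∀ n, n ≤ h n)
    (hcodes : ∀ s, O (false :: s) = true → IsCode en (false :: s)) {N c : ℕ}
    (hE : (en N).2 = fun m => h m ^ c + c) : {x | ∃ w, O (cd N x 0 w) = true} ∈ NH O h := by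
  -- a polynomial bound in `h`
  obtain ⟨c', hc'⟩ : PolyB fun m => (3 * (m + (m ^ c + c)) + 2) ^ (N + 2) + (N + 2) +
      (3 * (m + (m ^ c + c)) + 3) + (9 * m + (N + 20)) + 1 := by
    have h1 : PolyB fun m => 3 * (m + (m ^ c + c)) :=
      (PolyB.const 3).mul (PolyB.id.add ((PolyB.id.pow c).add (PolyB.const c)))
    exact (((((h1.add (PolyB.const 2)).pow (N + 2)).add (PolyB.const (N + 2))).add
      (h1.add (PolyB.const 3))).add (((PolyB.const 9).mul PolyB.id).add
      (PolyB.const (N + 20)))).add (PolyB.const 1)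
  refine ⟨c', (code0_time hcodes N).mono fun n => ?_⟩
  have h1 := hc' (h n)
  beta_reduce at h1
  have h2 := hh n
  have hEE : EE en N n ≤ h n + (h n ^ c + c) := by
    unfold EE
    rw [hE]
    show n + (h n ^ c + c) ≤ _
    omega
  have h3 : (3 * EE en N n + 2) ^ (N + 2) ≤ (3 * (h n + (h n ^ c + c)) + 2) ^ (N + 2) :=
    Nat.pow_le_pow_left (by omega) _
  set a := (3 * (h n + (h n ^ c + c)) + 2) ^ (N + 2) + (N + 2) with ha
  set b := (3 * (h n + (h n ^ c + c)) + 3) + (9 * h n + (N + 20)) with hb
  have h4 : 2 ^ ((3 * EE en N n + 2) ^ (N + 2) + (N + 2)) ≤ 2 ^ (a + b) :=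
    Nat.pow_le_pow_right (by norm_num) (by omega)
  have h5 : b ≤ 2 ^ (a + b) := le_trans Nat.lt_two_pow_self.le
    (Nat.pow_le_pow_right (by norm_num) (by omega))
  have h6 : 2 ^ (a + b + 1) ≤ 2 ^ (h n ^ c' + c') :=
    Nat.pow_le_pow_right (by norm_num) (by omega)
  rw [pow_succ] at h6
  show wl en N n + (9 * n + (N + 20)) ≤ _
  unfold wl
  omega

/-- The enumeration of programs with exponents; the Boolean is `true` for time `2 ^ poly(n)` and
`false` for time `2 ^ poly(h(n))`. -/
def enc (h : ℕ → ℕ) (e : ℕ → Prog × ℕ × Bool) : ℕ → Prog × (ℕ → ℕ) := fun N =>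
  ((e N).1, fun m => (if (e N).2.2 then m else h m) ^ ((e N).2.1 + 1) + ((e N).2.1 + 1))

theorem pow_succ_bound (a c : ℕ) : a ^ c + c ≤ a ^ (c + 1) + (c + 1) := by
  rcases Nat.eq_zero_or_pos a with rfl | ha
  · rcases Nat.eq_zero_or_pos c with rfl | hc
    · simp
    · rw [Nat.zero_pow hc]; omega
  · have h1 : a ^ c ≤ a ^ (c + 1) := Nat.pow_le_pow_right ha (by omega)
    omega

/-- A program of the enumeration accepts a language of the class. -/
theorem accN_iff {h : ℕ → ℕ} {e : ℕ → Prog × ℕ × Bool} {N c : ℕ} {p : Prog} {b : Bool}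
    (hN : e N = (p, c, b)) {L : Lang}
    (hp : ∀ e : Fin 1 → List Bool, (∀ t σ', Run O p t (init e) σ' → e 0 ∈ L) ∧
      (e 0 ∈ L → ∃ t σ', t ≤ 2 ^ ((if b then size e else h (size e)) ^ c + c) ∧
        Run O p t (init e) σ')) (x : List Bool) : x ∈ L ↔ AccN (enc h e) O N x := by
  have h1 := hp fun _ => x
  have hs : size (fun _ : Fin 1 => x) = x.length := by simp [size]
  rw [hs] at h1
  unfold AccN enc LibNexp.Acc
  simp only [hN]
  constructor
  · intro hx
    obtain ⟨t, σ', h2, h3⟩ := h1.2 hx
    exact ⟨t, σ', le_trans h2 (Nat.pow_le_pow_right (by norm_num) (pow_succ_bound _ _)), h3⟩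
  · rintro ⟨t, σ', -, h3⟩
    exact h1.1 t σ' h3

/-- Closure under complement. -/
theorem closed_of_good {h : ℕ → ℕ} (hh : ∀ n, n ≤ h n) {e : ℕ → Prog × ℕ × Bool}
    (he0 : ∀ p c, ∃ N, e N = (p, c, false)) (hO : Good (enc h e) V ν tgd O)
    (htg : ∀ N, (e N).2.2 = false → ∀ k, ¬ tgd k N) : Closed O h := by
  rintro L ⟨c, p, hp⟩
  obtain ⟨N, hN⟩ := he0 p c
  have hLN := accN_iff (O := O) (h := h) hN (L := L) (by simpa using hp)
  have htag : ∀ M, tag V ν tgd O N M = 0 := fun M => tag_never (htg N (by rw [hN]))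
  have h1 : Lᶜ = {x | ∃ w, O (cd N x 0 w) = true} := by
    ext x
    simp only [Set.mem_compl_iff, Set.mem_ofPred_eq]
    rw [hLN]
    constructor
    · intro h2
      obtain ⟨w, -, hw⟩ := hO.complete N x h2
      rw [htag] at hw
      exact ⟨w, hw⟩
    · rintro ⟨w, h2⟩
      obtain ⟨N', x', r', w', h4, h5⟩ := hO.codes _ h2
      obtain ⟨rfl, rfl, h6, rfl⟩ := cd_injective (show cd N x 0 w = cd N' x' r' w' from h4)
      exact hO.sound N x 0 w h5 h2 (htag _).symm
  rw [h1]
  refine nh_code0 hh hO.codes (N := N) (c := c + 1) ?_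
  unfold enc
  simp [hN]

/-- The tagged codes. -/
theorem code_mem (hcodes : ∀ s, O (false :: s) = true → IsCode en (false :: s)) {N c : ℕ}
    (hE : (en N).2 = fun m => m ^ c + c) : CodeLang O N ∈ NEXPLang O := by
  show NEXP O _
  rw [nexp_iff]
  have hEE : EE en N = fun n => n + (n ^ c + c) := by
    funext n
    unfold EE
    rw [hE]
  have hE' : PolyB fun n => 3 * EE en N n + 2 := by
    rw [hEE]
    exact ((PolyB.const 3).mul (PolyB.id.add ((PolyB.id.pow _).add (PolyB.const _)))).add
      (PolyB.const 2)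
  have hEmono : Monotone (EE en N) := by
    rw [hEE]
    intro a b hab
    have := Nat.pow_le_pow_left hab c
    show a + (a ^ c + c) ≤ b + (b ^ c + c)
    omega
  have hwmono : Monotone (wl en N) := by
    intro a b hab
    unfold wl
    have h1 := hEmono hab
    have h2 : (3 * EE en N a + 2) ^ (N + 2) ≤ (3 * EE en N b + 2) ^ (N + 2) :=
      Nat.pow_le_pow_left (by omega) _
    have h3 : 2 ^ ((3 * EE en N a + 2) ^ (N + 2) + (N + 2)) ≤
        2 ^ ((3 * EE en N b + 2) ^ (N + 2) + (N + 2)) :=
      Nat.pow_le_pow_right (by norm_num) (by omega)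
    omega
  have hwE : EP (wl en N) := by
    have h1 : EP fun n => (3 * EE en N n + 2) + 1 + 2 ^ ((3 * EE en N n + 2) ^ (N + 2) + (N + 2)) :=
      ((EP.of_poly (hE'.add (PolyB.const 1)))).add (EP.pow2 ((hE'.pow (N + 2)).add (PolyB.const _)))
    exact h1.mono fun n => le_of_eq rfl
  set pre : List Bool := false :: (List.replicate N true ++ [false]) with hpre
  have hask : ∀ z w, ask N z w = pre ++ ((z.flatMap fun b => [b, b]) ++ ([true, false] ++ w)) := by
    intro z w
    simp [ask, hpre, pair]
  refine ⟨fun n => wl en N n + (2 + ((2 * n + 1) + ((3 * n + 1) + (pre.length + 1)))),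
    hwE.add
      (EP.of_poly ((PolyB.const 2).add ((((PolyB.const 2).mul PolyB.id).add (PolyB.const 1)).add
        ((((PolyB.const 3).mul PolyB.id).add (PolyB.const 1)).add (PolyB.const _))))),
    .seq (guess 1) (.seq (pushW 1 [true, false]) (.seq (mv 0 2) (.seq (dbl 2 1)
      (.seq (pushW 1 pre) (.query 1 true))))), fun e => ⟨?_, ?_⟩⟩
  · rintro t σ' ⟨t3, t4, τ2, -, h3, t1, t2, τ1, -, h2, t5, t6, τ3, -, h4, t7, t8, τ4, -, h5,
      t9, t10, τ5, -, h6, -, h7, rfl⟩
    rw [run_guess] at h3
    obtain ⟨w, -, rfl⟩ := h3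
    rw [pushW_sound h2] at h4
    rw [run_mv (by norm_num)] at h4
    obtain ⟨-, rfl⟩ := h4
    rw [run_dbl (by norm_num)] at h5
    obtain ⟨-, rfl⟩ := h5
    rw [pushW_sound h6] at h7
    refine ⟨w, ?_⟩
    rw [hask]
    have a2 : init e 2 = [] := init_ge e (r := 2) (by norm_num)
    have a1 : init e 1 = [] := init_ge e (r := 1) le_rfl
    have a0 : init e 0 = e 0 := init0 e
    simpa [a2, a1, a0] using h7
  · rintro ⟨w, hw⟩
    have hwl : w.length ≤ wl en N (size e) := by
      obtain ⟨N', x', r', w', h3, h4⟩ := hcodes _ hw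
      have h3' : ask N (e 0) w = ask N' (pair x' (bt r')) w' := h3
      obtain ⟨rfl, hz, rfl⟩ := ask_injective h3'
      have h5 : x'.length ≤ size e := by
        have := len_le_size e 0
        rw [hz, length_pair] at this
        omega
      rw [h4]
      exact hwmono h5
    have h3 : Run O (guess 1) w.length (init e) (update (init e) 1 (w ++ init e 1)) :=
      run_guess.2 ⟨w, rfl, rfl⟩
    set τ1 := update (init e) 1 (w ++ init e 1) with hτ1
    have a0 : τ1 0 = e 0 := by rw [hτ1, update_of_ne (by norm_num), init0]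
    have a1 : τ1 1 = w := by
      rw [hτ1, update_self, init_ge e (r := 1) le_rfl, List.append_nil]
    have a2 : τ1 2 = [] := by
      rw [hτ1, update_of_ne (by norm_num), init_ge e (r := 2) (by norm_num)]
    have h4 := pushW_complete (O := O) (r := 1) [true, false] τ1
    set τ2 := update τ1 1 ([true, false] ++ τ1 1) with hτ2
    have b0 : τ2 0 = e 0 := by rw [hτ2, update_of_ne (by norm_num), a0]
    have b1 : τ2 1 = [true, false] ++ w := by rw [hτ2, update_self, a1]
    have b2 : τ2 2 = [] := by rw [hτ2, update_of_ne (by norm_num), a2]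
    have h5 : Run O (mv 0 2) (2 * (e 0).length + 1) τ2
        (update (update τ2 0 []) 2 (e 0).reverse) :=
      (run_mv (by norm_num)).2 ⟨by rw [b0], by rw [b0, b2, List.append_nil]⟩
    set τ3 := update (update τ2 0 []) 2 (e 0).reverse with hτ3
    have c1 : τ3 1 = [true, false] ++ w := by
      rw [hτ3, update_of_ne (by norm_num), update_of_ne (by norm_num), b1]
    have c2 : τ3 2 = (e 0).reverse := by rw [hτ3, update_self]
    have h6 : Run O (dbl 2 1) (3 * (e 0).length + 1) τ3
        (update (update τ3 2 []) 1 (((e 0).flatMap fun b => [b, b]) ++ ([true, false] ++ w))) :=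
      (run_dbl (by norm_num)).2 ⟨by rw [c2, List.length_reverse], by
        rw [c2, c1, List.reverse_reverse]⟩
    set τ4 := update (update τ3 2 []) 1 (((e 0).flatMap fun b => [b, b]) ++ ([true, false] ++ w))
      with hτ4
    have d1 : τ4 1 = ((e 0).flatMap fun b => [b, b]) ++ ([true, false] ++ w) := by
      rw [hτ4, update_self]
    have h7 := pushW_complete (O := O) (r := 1) pre τ4
    refine ⟨w.length + (2 + ((2 * (e 0).length + 1) + ((3 * (e 0).length + 1) +
      (pre.length + 1)))), _, ?_, _, _, _, rfl, h3, _, _, _, rfl, h4, _, _, _, rfl, h5,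
      _, _, _, rfl, h6, _, _, _, rfl, h7, rfl, ?_, rfl⟩
    · have e0 := len_le_size e 0
      refine Nat.add_le_add hwl ?_
      omega
    · rw [update_self, d1, ← hask]
      exact hw

/-- The complement with the tag as advice. -/
theorem code_iff (hO : Good en V ν tgd O) (N : ℕ) (x : List Bool) : ¬ AccN en O N x ↔
    pair x (bt (tag V ν tgd O N (qlen en N x.length))) ∈ CodeLang O N := by
  constructor
  · intro h
    obtain ⟨w, -, hw⟩ := hO.complete N x h
    exact ⟨w, hw⟩
  · rintro ⟨w, h2⟩
    obtain ⟨N', x', r', w', h4, h5⟩ := hO.codes _ h2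
    obtain ⟨rfl, rfl, h6, rfl⟩ := cd_injective (show cd N x _ w = cd N' x' r' w' from h4)
    exact hO.sound N x _ w h5 h2 rfl

/-- The tags used at stage `k` are below `V k`. -/
theorem tag_lt (hV : ∀ k, 1 ≤ V k) (hmono : ∀ k, lev ν k < lev ν (k + 1)) (O : List Bool → Bool)
    (N M : ℕ) : tag V ν tgd O N M = 0 ∨
      ∃ k, lev ν k ≤ M ∧ tgd k N ∧ tag V ν tgd O N M < V k := by
  classical
  by_cases h : ∃ k, lev ν k ≤ M ∧ M < lev ν (k + 1) ∧ tgd k N
  · obtain ⟨k, h1, h2, h3⟩ := h
    refine Or.inr ⟨k, h1, h3, ?_⟩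
    rw [tag_eq hmono h1 h2 h3]
    exact census_lt (hV k) O (ν k)
  · left
    push Not at h
    unfold tag
    refine Finset.sum_eq_zero fun k _ => ?_
    rw [if_neg]
    rintro ⟨h1, h2, h3⟩
    exact h k h1 h2 h3

end Pool.Agent.LibTrade92
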