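import Pool.Agent.LibTrade92.Coding
import Pool.Agent.LibTrade92.Rank

/-!
Worlds of a stage and their rank.
-/

namespace Pool.Agent.LibTrade92

open Function Pool.Agent.LibNexp
open Pool.Agent.LibSpec4 (dg length_dg dg_injective bt bt_injective length_bt ask cd ask_injective
  cd_injective length_ask length_cd length_lt_cd xs length_xs xs_injective census lev
  witLang_agree census_agree le_lev lev_mono exists_fix exists_notMem)

variable {en : ℕ → Prog × (ℕ → ℕ)} {V ν : ℕ → ℕ} {tgd : ℕ → ℕ → Prop} {R : ℕ → ℕ} {L : ℕ}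
  {I : Finset (ℕ × List Bool)}

/-- The number of accepted items of the level `l`. -/
noncomputable def acc (en : ℕ → Prog × (ℕ → ℕ)) (R : ℕ → ℕ) (I : Finset (ℕ × List Bool))
    (O : List Bool → Bool) (l : ℕ) : ℕ := by
  classical
  exact (I.filter fun q => R l ≤ qlen en q.1 q.2.length ∧ qlen en q.1 q.2.length < R (l + 1) ∧
    AccN en O q.1 q.2).card

/-- The rank of an oracle. -/
noncomputable def rank (en : ℕ → Prog × (ℕ → ℕ)) (R : ℕ → ℕ) (I : Finset (ℕ × List Bool)) (L : ℕ)
    (O : List Bool → Bool) : ℕ := wsum I.card L (acc en R I O)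

theorem acc_le {O : List Bool → Bool} (l : ℕ) : acc en R I O l ≤ I.card := by
  classical
  exact Finset.card_filter_le _ _

theorem rank_lt (O : List Bool → Bool) : rank en R I L O < (I.card + 1) ^ L :=
  wsum_lt (fun _ => acc_le _) L

/-- An item of the level `l` becomes accepted, and no item of a lower level is lost. -/
theorem rank_lex {O O' : List Bool → Bool} (hR : Monotone R) {l : ℕ} (hl : l < L)
    (h1 : ∀ q ∈ I, qlen en q.1 q.2.length < R (l + 1) → AccN en O q.1 q.2 → AccN en O' q.1 q.2)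
    {q : ℕ × List Bool} (hq : q ∈ I) (hq1 : R l ≤ qlen en q.1 q.2.length)
    (hq2 : qlen en q.1 q.2.length < R (l + 1)) (h2 : ¬ AccN en O q.1 q.2)
    (h3 : AccN en O' q.1 q.2) : rank en R I L O < rank en R I L O' := by
  classical
  refine wsum_lex (fun _ => acc_le _) (fun i hi => ?_) ?_ hl
  · refine Finset.card_le_card fun p hp => ?_
    rw [Finset.mem_filter] at hp ⊢
    refine ⟨hp.1, hp.2.1, hp.2.2.1, h1 p hp.1 ?_ hp.2.2.2⟩
    exact lt_of_lt_of_le hp.2.2.1 (hR (by omega))
  · refine Finset.card_lt_card ?_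
    rw [Finset.ssubset_iff_of_subset]
    · refine ⟨q, ?_, ?_⟩
      · rw [Finset.mem_filter]
        exact ⟨hq, hq1, hq2, h3⟩
      · rw [Finset.mem_filter]
        rintro ⟨-, -, -, h4⟩
        exact h2 h4
    · intro p hp
      rw [Finset.mem_filter] at hp ⊢
      exact ⟨hp.1, hp.2.1, hp.2.2.1, h1 p hp.1 hp.2.2.1 hp.2.2.2⟩

/-- The worlds of the stage `k` with `j` witnesses. -/
structure World (en : ℕ → Prog × (ℕ → ℕ)) (V ν : ℕ → ℕ) (tgd : ℕ → ℕ → Prop) (k : ℕ)
    (O₀ O : List Bool → Bool) (j : ℕ) : Prop where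
  low : ∀ s, s.length < lev ν k → O s = O₀ s
  good : Good en V ν tgd O
  wit : ∀ i, i < V k - 1 → (xs (ν k) i ∈ WitLang O ↔ i < j)
  fresh : ∀ N x r w, tgd k N → w.length = wl en N x.length → lev ν k ≤ qlen en N x.length →
    qlen en N x.length < lev ν (k + 1) → j < r → O (cd N x r w) = false

/-- The data of a stage: the levels `R 0 ≤ lev ν k`, ..., `R L ≤ lev ν (k + 1)` and the finite set
`I` containing all untagged programs and inputs whose codes are shorter than `R L`. -/
structure Data (en : ℕ → Prog × (ℕ → ℕ)) (V ν : ℕ → ℕ) (tgd : ℕ → ℕ → Prop) (k : ℕ) (R : ℕ → ℕ)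
    (L : ℕ) (I : Finset (ℕ × List Bool)) : Prop where
  pos : ∀ k, 1 ≤ ν k
  cand : ∀ k, V k ≤ 2 ^ (ν k - 1)
  levlt : ∀ k, lev ν k < lev ν (k + 1)
  mono : Monotone R
  first : R 0 ≤ lev ν k
  last : R L ≤ lev ν (k + 1)
  gap : ∀ N m l, l < L → R l ≤ qlen en N m → R (l + 1) ≤ wl en N m
  items : ∀ N x, ¬ tgd k N → lev ν k ≤ qlen en N x.length → wl en N x.length < R L → (N, x) ∈ I

/-- Below the last level every item has a level. -/
theorem exists_level {M : ℕ} (h1 : R 0 ≤ M) (h2 : M < R L) :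
    ∃ l, l < L ∧ R l ≤ M ∧ M < R (l + 1) := by
  induction L with
  | zero => omega
  | succ L ih =>
    by_cases h : M < R L
    · obtain ⟨l, hl, h3⟩ := ih h
      exact ⟨l, by omega, h3⟩
    · exact ⟨L, by omega, by omega, h2⟩

theorem not_isCode_true (s : List Bool) : ¬ IsCode en (true :: s) := by
  rintro ⟨N, x, r, w, h, -⟩
  simp [cd, ask] at h

end Pool.Agent.LibTrade92
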